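import Pool.Agent.V1172.FR.Fourier

/-!
The contradiction in the abstract setting.
-/

set_option autoImplicit false

open Set Filter Topology Metric

namespace Pool.Agent.V1172.FR

/-- The data extracted from a reverser. -/
structure Dat (r : ℝ) (X Y d : ℂ → ℂ → ℂ) : Prop where
  hr0 : 0 < r
  hr : r < 1
  hdc : ∀ x y : ℂ, ‖x‖ ≤ r → ‖y‖ ≤ r → Continuous fun t : ℝ => d (ee t * x) (ee (-t) * y)
  hd : ∀ x y : ℂ, ‖x‖ ≤ r → ‖y‖ ≤ r → ‖d x y‖ ≤ 1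
  hX1 : ∀ x y : ℂ, ‖x‖ ≤ r → ‖y‖ ≤ r → ‖X x y‖ < 1
  hY1 : ∀ x y : ℂ, ‖x‖ ≤ r → ‖y‖ ≤ r → ‖Y x y‖ < 1
  hXe : ∀ x y : ℂ, ‖x‖ ≤ r → ‖y‖ ≤ r → ∀ t : ℝ, X (ee t * x) (ee (-t) * y) = ee (-t) * X x y
  hYe : ∀ x y : ℂ, ‖x‖ ≤ r → ‖y‖ ≤ r → ∀ t : ℝ, Y (ee t * x) (ee (-t) * y) = ee t * Y x y
  hfun : ∀ x y : ℂ, ‖x‖ ≤ r → ‖y‖ ≤ r → d x y = aa x y +
      aa (X (gam * x) (gam⁻¹ * y)) (Y (gam * x) (gam⁻¹ * y)) + d (gam * x) (gam⁻¹ * y)

theorem Dat.int_le {r : ℝ} {X Y d : ℂ → ℂ → ℂ} (h : Dat r X Y d) (x y : ℂ) (hx : ‖x‖ ≤ r)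
    (hy : ‖y‖ ≤ r) (n : ℕ) :
    ‖∫ t in (0 : ℝ)..1, d (ee t * x) (ee (-t) * y) * ee (-(((n : ℕ) : ℤ) * t))‖ ≤ 1 := by
  have := intervalIntegral.norm_integral_le_of_norm_le_const (a := 0) (b := 1) (C := 1)
    (f := fun t : ℝ => d (ee t * x) (ee (-t) * y) * ee (-(((n : ℕ) : ℤ) * t))) (fun t _ => by
      rw [norm_mul, norm_ee, mul_one]
      refine h.hd _ _ ?_ ?_
      · rw [norm_mul, norm_ee, one_mul]; exact hx
      · rw [norm_mul, norm_ee, one_mul]; exact hy)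
  simpa using this

theorem Dat.bound3 {r : ℝ} {X Y d : ℂ → ℂ → ℂ} (h : Dat r X Y d) (x y : ℂ) (hx : ‖x‖ ≤ r)
    (hy : ‖y‖ ≤ r) (l : ℕ) :
    beta l * ‖(x ^ 3 * y) ^ Mseq l + (X x y * Y x y ^ 3) ^ Mseq l‖ ≤ 1 := by
  have h1 := fourier_main h.hr X Y d h.hdc h.hX1 h.hY1 h.hXe h.hYe h.hfun x y hx hy (2 * Mseq l)
  have h2 := h.int_le x y hx hy (2 * Mseq l)
  have hM := Mseq_pos l
  have hMn : ∀ l', 2 * Mseq l' ≠ Mseq l := fun l' => Mseq_two_ne l' l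
  rw [FC_hit s2 _ 2 _ l (by norm_num) (by push_cast; ring),
    FC_miss s2' _ (-2) _ (fun l' => by push_cast; have := Mseq_pos l'; omega),
    FC_miss s4 _ 4 _ (fun l' => by push_cast; have := hMn l'; omega),
    FC_miss s4' _ (-4) _ (fun l' => by push_cast; have := Mseq_pos l'; omega),
    FC_miss s2 _ (-2) _ (fun l' => by push_cast; have := Mseq_pos l'; omega),
    FC_hit s2' _ 2 _ l (by norm_num) (by push_cast; ring),
    FC_miss s4 _ (-4) _ (fun l' => by push_cast; have := Mseq_pos l'; omega),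
    FC_miss s4' _ 4 _ (fun l' => by push_cast; have := hMn l'; omega)] at h1
  obtain ⟨I, hI⟩ : ∃ I, I = ∫ t in (0 : ℝ)..1, d (ee t * x) (ee (-t) * y) *
    ee (-(((2 * Mseq l : ℕ) : ℤ) * t)) := ⟨_, rfl⟩
  rw [← hI] at h1 h2
  have hne : (1 : ℂ) - gam ^ (2 * Mseq l) ≠ 0 :=
    sub_ne_zero.2 (gam_pow_ne_one (by omega)).symm
  have hkey : I = beta l * ((x ^ 3 * y) ^ Mseq l + (X x y * Y x y ^ 3) ^ Mseq l) := by
    have hi := inv_pow_eq l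
    have e1 : (gam⁻¹ * X x y * (gam * Y x y) ^ 3) ^ Mseq l =
        gam⁻¹ ^ Mseq l * (gam ^ Mseq l) ^ 3 * (X x y * Y x y ^ 3) ^ Mseq l := by
      simp only [mul_pow, ← pow_mul]
      ring
    have e2 : gam ^ (2 * Mseq l) = (gam ^ Mseq l) ^ 2 := by rw [← pow_mul, mul_comm]
    rw [e1, e2] at h1
    rw [e2] at hne
    refine mul_right_cancel₀ hne ?_
    rw [h1]
    unfold s2 s2'
    obtain ⟨g, hg⟩ : ∃ g, g = gam ^ Mseq l := ⟨_, rfl⟩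
    obtain ⟨g', hg'⟩ : ∃ g', g' = gam⁻¹ ^ Mseq l := ⟨_, rfl⟩
    rw [← hg, ← hg'] at hi ⊢
    have h3 : g' ^ 3 * g ^ 3 = 1 := by
      have : g' ^ 3 * g ^ 3 = (g' * g) ^ 3 := by ring
      rw [this, hi, one_pow]
    linear_combination (beta l : ℂ) * (X x y * Y x y ^ 3) ^ Mseq l * (h3 - g ^ 2 * hi)
  rw [hkey, norm_mul, norm_beta] at h2
  exact h2

theorem Dat.bound5 {r : ℝ} {X Y d : ℂ → ℂ → ℂ} (h : Dat r X Y d) (x y : ℂ) (hx : ‖x‖ ≤ r)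
    (hy : ‖y‖ ≤ r) (l : ℕ) :
    beta l * ‖(x ^ 5 * y) ^ Mseq l + (X x y * Y x y ^ 5) ^ Mseq l‖ ≤ 1 := by
  have h1 := fourier_main h.hr X Y d h.hdc h.hX1 h.hY1 h.hXe h.hYe h.hfun x y hx hy (4 * Mseq l)
  have h2 := h.int_le x y hx hy (4 * Mseq l)
  have hM := Mseq_pos l
  have hMn : ∀ l', Mseq l' ≠ 2 * Mseq l := fun l' => (Mseq_two_ne l l').symm
  rw [FC_miss s2 _ 2 _ (fun l' => by push_cast; have := hMn l'; omega),
    FC_miss s2' _ (-2) _ (fun l' => by push_cast; have := Mseq_pos l'; omega),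
    FC_hit s4 _ 4 _ l (by norm_num) (by push_cast; ring),
    FC_miss s4' _ (-4) _ (fun l' => by push_cast; have := Mseq_pos l'; omega),
    FC_miss s2 _ (-2) _ (fun l' => by push_cast; have := Mseq_pos l'; omega),
    FC_miss s2' _ 2 _ (fun l' => by push_cast; have := hMn l'; omega),
    FC_miss s4 _ (-4) _ (fun l' => by push_cast; have := Mseq_pos l'; omega),
    FC_hit s4' _ 4 _ l (by norm_num) (by push_cast; ring)] at h1
  obtain ⟨I, hI⟩ : ∃ I, I = ∫ t in (0 : ℝ)..1, d (ee t * x) (ee (-t) * y) *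
    ee (-(((4 * Mseq l : ℕ) : ℤ) * t)) := ⟨_, rfl⟩
  rw [← hI] at h1 h2
  have hne : (1 : ℂ) - gam ^ (4 * Mseq l) ≠ 0 :=
    sub_ne_zero.2 (gam_pow_ne_one (by omega)).symm
  have hkey : I = beta l * ((x ^ 5 * y) ^ Mseq l + (X x y * Y x y ^ 5) ^ Mseq l) := by
    have hi := inv_pow_eq l
    have e1 : (gam⁻¹ * X x y * (gam * Y x y) ^ 5) ^ Mseq l =
        gam⁻¹ ^ Mseq l * (gam ^ Mseq l) ^ 5 * (X x y * Y x y ^ 5) ^ Mseq l := by
      simp only [mul_pow, ← pow_mul]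
      ring
    have e2 : gam ^ (4 * Mseq l) = (gam ^ Mseq l) ^ 4 := by rw [← pow_mul, mul_comm]
    rw [e1, e2] at h1
    rw [e2] at hne
    refine mul_right_cancel₀ hne ?_
    rw [h1]
    unfold s4 s4'
    obtain ⟨g, hg⟩ : ∃ g, g = gam ^ Mseq l := ⟨_, rfl⟩
    obtain ⟨g', hg'⟩ : ∃ g', g' = gam⁻¹ ^ Mseq l := ⟨_, rfl⟩
    rw [← hg, ← hg'] at hi ⊢
    have h3 : g' ^ 5 * g ^ 5 = 1 := by
      have : g' ^ 5 * g ^ 5 = (g' * g) ^ 5 := by ring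
      rw [this, hi, one_pow]
    linear_combination (beta l : ℂ) * (X x y * Y x y ^ 5) ^ Mseq l * (h3 - g ^ 4 * hi)
  rw [hkey, norm_mul, norm_beta] at h2
  exact h2

/-- The maximum principle step. -/
theorem maxstep {r r' : ℝ} (hr0 : 0 < r) (hrr : r < r') {U V : ℂ → ℂ}
    (hU : DifferentiableOn ℂ U (ball 0 r')) (hV : DifferentiableOn ℂ V (ball 0 r'))
    (hU0 : U 0 = 0) (hV0 : V 0 = 0) (j M : ℕ) (b : ℝ) (hb : 0 < b)
    (h : ∀ z : ℂ, ‖z‖ ≤ r → b * ‖(z ^ j * z) ^ M + (U z * V z ^ j) ^ M‖ ≤ 1) :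
    ‖1 + (deriv U 0 * deriv V 0 ^ j) ^ M‖ ≤ 1 / (b * (r ^ (j + 1)) ^ M) := by
  have h0 : (0 : ℂ) ∈ ball (0 : ℂ) r' := mem_ball_self (hr0.trans hrr)
  have hnhds : ball (0 : ℂ) r' ∈ 𝓝 (0 : ℂ) := isOpen_ball.mem_nhds h0
  have hU1 : DifferentiableOn ℂ (dslope U 0) (ball 0 r') :=
    (Complex.differentiableOn_dslope hnhds).2 hU
  have hV1 : DifferentiableOn ℂ (dslope V 0) (ball 0 r') :=
    (Complex.differentiableOn_dslope hnhds).2 hV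
  have hUz : ∀ z, U z = z * dslope U 0 z := by
    intro z
    have := sub_smul_dslope U 0 z
    rw [hU0, sub_zero, sub_zero, smul_eq_mul] at this
    exact this.symm
  have hVz : ∀ z, V z = z * dslope V 0 z := by
    intro z
    have := sub_smul_dslope V 0 z
    rw [hV0, sub_zero, sub_zero, smul_eq_mul] at this
    exact this.symm
  have hG : DifferentiableOn ℂ (fun z => 1 + (dslope U 0 z * dslope V 0 z ^ j) ^ M)
      (ball 0 r') := ((hU1.mul (hV1.pow j)).pow M).const_add 1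
  have hcl : closure (ball (0 : ℂ) r) ⊆ ball 0 r' := by
    rw [closure_ball _ hr0.ne']
    exact closedBall_subset_ball hrr
  have hdc : DiffContOnCl ℂ (fun z => 1 + (dslope U 0 z * dslope V 0 z ^ j) ^ M) (ball 0 r) :=
    (hG.mono hcl).diffContOnCl
  have hpos : 0 < b * (r ^ (j + 1)) ^ M := by positivity
  have key := Complex.norm_le_of_forall_mem_frontier_norm_le (isBounded_ball (x := (0:ℂ)) (r := r))
    hdc (C := 1 / (b * (r ^ (j + 1)) ^ M)) ?_ (subset_closure (mem_ball_self hr0))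
  · simp only [dslope_same] at key
    exact key
  · intro z hz
    rw [frontier_ball _ hr0.ne', mem_sphere_zero_iff_norm] at hz
    rw [le_div_iff₀ hpos]
    have h1 := h z hz.le
    have h2 : (z ^ j * z) ^ M + (U z * V z ^ j) ^ M =
        (z ^ (j + 1)) ^ M * (1 + (dslope U 0 z * dslope V 0 z ^ j) ^ M) := by
      rw [hUz, hVz]
      have : z * dslope U 0 z * (z * dslope V 0 z) ^ j =
        z ^ (j + 1) * (dslope U 0 z * dslope V 0 z ^ j) := by ring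
      rw [this, mul_pow, pow_succ]
      ring
    rw [h2, norm_mul, norm_pow, norm_pow, hz] at h1
    linarith

theorem no_finite {r r' : ℝ} {X Y d : ℂ → ℂ → ℂ} (h : Dat r X Y d) (hrr : r < r')
    (hU : DifferentiableOn ℂ (fun z => X z z) (ball 0 r'))
    (hV : DifferentiableOn ℂ (fun z => Y z z) (ball 0 r'))
    (hU0 : X 0 0 = 0) (hV0 : Y 0 0 = 0) {k : ℕ} (hk : 0 < k)
    (hc : (deriv (fun z => X z z) 0 * deriv (fun z => Y z z) 0) ^ k = 1) : False := by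
  obtain ⟨c1, hc1⟩ : ∃ c1, c1 = deriv (fun z => X z z) 0 := ⟨_, rfl⟩
  obtain ⟨c2, hc2⟩ : ∃ c2, c2 = deriv (fun z => Y z z) 0 := ⟨_, rfl⟩
  rw [← hc1, ← hc2] at hc
  have hr0 := h.hr0
  have b3 : ∀ l, ‖1 + (c1 * c2 ^ 3) ^ Mseq l‖ ≤ 1 / (beta l * (r ^ (3 + 1)) ^ Mseq l) := by
    intro l
    rw [hc1, hc2]
    exact maxstep h.hr0 hrr hU hV hU0 hV0 3 (Mseq l) (beta l) (beta_pos l)
      (fun z hz => h.bound3 z z hz hz l)
  have b5 : ∀ l, ‖1 + (c1 * c2 ^ 5) ^ Mseq l‖ ≤ 1 / (beta l * (r ^ (5 + 1)) ^ Mseq l) := by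
    intro l
    rw [hc1, hc2]
    exact maxstep h.hr0 hrr hU hV hU0 hV0 5 (Mseq l) (beta l) (beta_pos l)
      (fun z hz => h.bound5 z z hz hz l)
  obtain ⟨L3, hL3⟩ := beta_growth (r ^ (3 + 1)) (by positivity) 1 (1 / 4) (by norm_num)
  obtain ⟨L5, hL5⟩ := beta_growth (r ^ (5 + 1)) (by positivity) 1 (1 / 4) (by norm_num)
  obtain ⟨l, hl⟩ : ∃ l, l = L3 + L5 + k := ⟨_, rfl⟩
  have h3 := (b3 l).trans (hL3 l (by omega))
  have h5 := (b5 l).trans (hL5 l (by omega))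
  obtain ⟨m, hm⟩ := dvd_Mseq hk (show k ≤ l by omega)
  have hone : (c1 * c2) ^ Mseq l = 1 := by rw [hm, pow_mul, hc, one_pow]
  have e3 : (c1 * c2 ^ 3) ^ Mseq l = (c2 ^ Mseq l) ^ 2 := by
    have : c1 * c2 ^ 3 = (c1 * c2) * c2 ^ 2 := by ring
    rw [this, mul_pow, hone, one_mul, ← pow_mul, ← pow_mul, mul_comm]
  have e5 : (c1 * c2 ^ 5) ^ Mseq l = ((c2 ^ Mseq l) ^ 2) ^ 2 := by
    have : c1 * c2 ^ 5 = (c1 * c2) * c2 ^ 4 := by ring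
    rw [this, mul_pow, hone, one_mul, ← pow_mul, ← pow_mul, ← pow_mul]
    congr 1; ring
  rw [e3] at h3
  rw [e5] at h5
  obtain ⟨u, hu⟩ : ∃ u, u = 1 + (c2 ^ Mseq l) ^ 2 := ⟨_, rfl⟩
  rw [← hu] at h3
  have e6 : 1 + ((c2 ^ Mseq l) ^ 2) ^ 2 = 2 - (2 * u - u ^ 2) := by rw [hu]; ring
  rw [e6] at h5
  have h6 : ‖(2 : ℂ)‖ ≤ ‖(2 : ℂ) - (2 * u - u ^ 2)‖ + (‖2 * u‖ + ‖u ^ 2‖) := by
    calc ‖(2 : ℂ)‖ = ‖((2 : ℂ) - (2 * u - u ^ 2)) + (2 * u - u ^ 2)‖ := by ring_nf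
      _ ≤ _ := (norm_add_le _ _).trans (add_le_add le_rfl (norm_sub_le _ _))
  rw [norm_mul, norm_pow] at h6
  have h7 : ‖(2 : ℂ)‖ = 2 := by simp
  rw [h7] at h6
  have h8 : ‖u‖ ^ 2 ≤ (1 / 4) ^ 2 := pow_le_pow_left₀ (norm_nonneg _) h3 2
  nlinarith

end Pool.Agent.V1172.FR
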