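import Pool.Agent.V1172.FR.Germ

/-!
The Fourier step.
-/

set_option autoImplicit false

open Set Filter Topology Metric

namespace Pool.Agent.V1172.FR

/-- The Fourier coefficient of order `n` of `t ↦ PS σ (ee (m t) s)`. -/
noncomputable def FC (σ : ℕ → ℂ) (s : ℂ) (m n : ℤ) : ℂ :=
  ∑' l, if m * (Mseq l : ℤ) = n then σ l * s ^ Mseq l else 0

theorem FC_miss (σ : ℕ → ℂ) (s : ℂ) (m n : ℤ) (h : ∀ l, m * (Mseq l : ℤ) ≠ n) :
    FC σ s m n = 0 := by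
  unfold FC
  have : ∀ l, (if m * (Mseq l : ℤ) = n then σ l * s ^ Mseq l else 0) = 0 := fun l =>
    if_neg (h l)
  simp [this]

theorem FC_hit (σ : ℕ → ℂ) (s : ℂ) (m n : ℤ) (l : ℕ) (hm : m ≠ 0) (h : m * (Mseq l : ℤ) = n) :
    FC σ s m n = σ l * s ^ Mseq l := by
  unfold FC
  rw [tsum_eq_single l]
  · rw [if_pos h]
  · intro l' hl'
    rw [if_neg]
    intro h'
    have h1 : (Mseq l' : ℤ) = Mseq l := mul_left_cancel₀ hm (h'.trans h.symm)
    exact hl' (Mseq_strictMono.injective (by exact_mod_cast h1))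

theorem continuous_PS_rot {σ : ℕ → ℂ} (hσ : Bd σ) {s : ℂ} (hs : ‖s‖ < 1) (m n : ℤ) :
    Continuous fun t : ℝ => PS σ (ee (m * t) * s) * ee (-(n * t)) := by
  have h1 : Continuous fun t : ℝ => PS σ (ee (m * t) * s) := by
    refine (PS_diff hσ).continuousOn.comp_continuous ?_ ?_
    · exact (continuous_ee.comp (by fun_prop)).mul continuous_const
    · intro t
      rw [mem_ball_zero_iff, norm_mul, norm_ee, one_mul]
      exact hs
  exact h1.mul (continuous_ee.comp (by fun_prop))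

theorem aa_rot (s : ℤ) (x y : ℂ) (t : ℝ) :
    aa (ee (s * t) * x) (ee (-(s * t)) * y) =
      PS s2 (ee (((2 * s : ℤ) : ℝ) * t) * (x ^ 3 * y)) -
        PS s2' (ee (((-2 * s : ℤ) : ℝ) * t) * (x * y ^ 3)) +
        PS s4 (ee (((4 * s : ℤ) : ℝ) * t) * (x ^ 5 * y)) -
        PS s4' (ee (((-4 * s : ℤ) : ℝ) * t) * (x * y ^ 5)) := by
  have h3 : ∀ n : ℕ, ee (s * t) ^ (n + 1) * ee (-(s * t)) = ee ((n * (s * t))) := by
    intro n
    rw [ee_pow, ← ee_add]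
    congr 1
    push_cast
    ring
  have h3' : ∀ n : ℕ, ee (s * t) * ee (-(s * t)) ^ (n + 1) = ee (-(n * (s * t))) := by
    intro n
    rw [ee_pow, ← ee_add]
    congr 1
    push_cast
    ring
  have e1 : (ee (s * t) * x) ^ 3 * (ee (-(s * t)) * y) =
      ee (((2 * s : ℤ) : ℝ) * t) * (x ^ 3 * y) := by
    have h := h3 2
    have h' : ee (((2 : ℕ) * (s * t))) = ee (((2 * s : ℤ) : ℝ) * t) := by
      congr 1; push_cast; ring
    rw [← h', ← h]; ring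
  have e2 : (ee (s * t) * x) * (ee (-(s * t)) * y) ^ 3 =
      ee (((-2 * s : ℤ) : ℝ) * t) * (x * y ^ 3) := by
    have h := h3' 2
    have h' : ee (-((2 : ℕ) * (s * t))) = ee (((-2 * s : ℤ) : ℝ) * t) := by
      congr 1; push_cast; ring
    rw [← h', ← h]; ring
  have e3 : (ee (s * t) * x) ^ 5 * (ee (-(s * t)) * y) =
      ee (((4 * s : ℤ) : ℝ) * t) * (x ^ 5 * y) := by
    have h := h3 4
    have h' : ee (((4 : ℕ) * (s * t))) = ee (((4 * s : ℤ) : ℝ) * t) := by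
      congr 1; push_cast; ring
    rw [← h', ← h]; ring
  have e4 : (ee (s * t) * x) * (ee (-(s * t)) * y) ^ 5 =
      ee (((-4 * s : ℤ) : ℝ) * t) * (x * y ^ 5) := by
    have h := h3' 4
    have h' : ee (-((4 : ℕ) * (s * t))) = ee (((-4 * s : ℤ) : ℝ) * t) := by
      congr 1; push_cast; ring
    rw [← h', ← h]; ring
  unfold aa
  rw [e1, e2, e3, e4]

theorem fourier_aa (s : ℤ) {x y : ℂ} (hx : ‖x‖ < 1) (hy : ‖y‖ < 1) (n : ℤ) :
    ∫ t in (0 : ℝ)..1, aa (ee (s * t) * x) (ee (-(s * t)) * y) * ee (-(n * t)) =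
      FC s2 (x ^ 3 * y) (2 * s) n - FC s2' (x * y ^ 3) (-2 * s) n +
        FC s4 (x ^ 5 * y) (4 * s) n - FC s4' (x * y ^ 5) (-4 * s) n := by
  obtain ⟨h1, h2, h3, h4⟩ := small_mon hx hy
  have c1 := continuous_PS_rot bd_s2 h1 (2 * s) n
  have c2 := continuous_PS_rot bd_s2' h2 (-2 * s) n
  have c3 := continuous_PS_rot bd_s4 h3 (4 * s) n
  have c4 := continuous_PS_rot bd_s4' h4 (-4 * s) n
  have f1 := fourier_PS bd_s2 h1 (2 * s) n
  have f2 := fourier_PS bd_s2' h2 (-2 * s) n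
  have f3 := fourier_PS bd_s4 h3 (4 * s) n
  have f4 := fourier_PS bd_s4' h4 (-4 * s) n
  unfold FC
  rw [← f1, ← f2, ← f3, ← f4]
  obtain ⟨g1, hg1⟩ : ∃ g1 : ℝ → ℂ, g1 = fun t : ℝ =>
    PS s2 (ee (((2 * s : ℤ) : ℝ) * t) * (x ^ 3 * y)) * ee (-(n * t)) := ⟨_, rfl⟩
  obtain ⟨g2, hg2⟩ : ∃ g2 : ℝ → ℂ, g2 = fun t : ℝ =>
    PS s2' (ee (((-2 * s : ℤ) : ℝ) * t) * (x * y ^ 3)) * ee (-(n * t)) := ⟨_, rfl⟩
  obtain ⟨g3, hg3⟩ : ∃ g3 : ℝ → ℂ, g3 = fun t : ℝ =>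
    PS s4 (ee (((4 * s : ℤ) : ℝ) * t) * (x ^ 5 * y)) * ee (-(n * t)) := ⟨_, rfl⟩
  obtain ⟨g4, hg4⟩ : ∃ g4 : ℝ → ℂ, g4 = fun t : ℝ =>
    PS s4' (ee (((-4 * s : ℤ) : ℝ) * t) * (x * y ^ 5)) * ee (-(n * t)) := ⟨_, rfl⟩
  rw [← hg1] at c1 ⊢
  rw [← hg2] at c2 ⊢
  rw [← hg3] at c3 ⊢
  rw [← hg4] at c4 ⊢
  have c12 : Continuous fun t => g1 t - g2 t := c1.sub c2
  have c123 : Continuous fun t => g1 t - g2 t + g3 t := c12.add c3
  rw [← intervalIntegral.integral_sub (c1.intervalIntegrable _ _)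
    (c2.intervalIntegrable _ _), ← intervalIntegral.integral_add
    (c12.intervalIntegrable _ _) (c3.intervalIntegrable _ _),
    ← intervalIntegral.integral_sub (c123.intervalIntegrable _ _)
      (c4.intervalIntegrable _ _)]
  refine intervalIntegral.integral_congr fun t _ => ?_
  simp only [aa_rot, hg1, hg2, hg3, hg4]
  ring

theorem continuous_aa_rot (s : ℤ) {x y : ℂ} (hx : ‖x‖ < 1) (hy : ‖y‖ < 1) (n : ℤ) :
    Continuous fun t : ℝ => aa (ee (s * t) * x) (ee (-(s * t)) * y) * ee (-(n * t)) := by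
  obtain ⟨h1, h2, h3, h4⟩ := small_mon hx hy
  have c1 := continuous_PS_rot bd_s2 h1 (2 * s) n
  have c2 := continuous_PS_rot bd_s2' h2 (-2 * s) n
  have c3 := continuous_PS_rot bd_s4 h3 (4 * s) n
  have c4 := continuous_PS_rot bd_s4' h4 (-4 * s) n
  refine (((c1.sub c2).add c3).sub c4).congr fun t => ?_
  simp only [aa_rot, Pi.add_apply, Pi.sub_apply]
  ring

theorem ee_mul_gam (t : ℝ) : gam * ee t = ee (t + theta) := by
  rw [ee_add, ee_theta, mul_comm]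

theorem ee_mul_gam_inv (t : ℝ) : gam⁻¹ * ee (-t) = ee (-(t + theta)) := by
  rw [neg_add, ee_add, ee_neg theta, ee_theta, mul_comm]

theorem ee_nat_theta (n : ℕ) : ee (n * theta) = gam ^ n := by
  rw [← ee_pow, ee_theta]

/-- The general Fourier identity. -/
theorem fourier_main {r : ℝ} (hr : r < 1) (X Y d : ℂ → ℂ → ℂ)
    (hdc : ∀ x y : ℂ, ‖x‖ ≤ r → ‖y‖ ≤ r → Continuous fun t : ℝ => d (ee t * x) (ee (-t) * y))
    (hX1 : ∀ x y : ℂ, ‖x‖ ≤ r → ‖y‖ ≤ r → ‖X x y‖ < 1)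
    (hY1 : ∀ x y : ℂ, ‖x‖ ≤ r → ‖y‖ ≤ r → ‖Y x y‖ < 1)
    (hXe : ∀ x y : ℂ, ‖x‖ ≤ r → ‖y‖ ≤ r → ∀ t : ℝ, X (ee t * x) (ee (-t) * y) = ee (-t) * X x y)
    (hYe : ∀ x y : ℂ, ‖x‖ ≤ r → ‖y‖ ≤ r → ∀ t : ℝ, Y (ee t * x) (ee (-t) * y) = ee t * Y x y)
    (hfun : ∀ x y : ℂ, ‖x‖ ≤ r → ‖y‖ ≤ r → d x y = aa x y +
      aa (X (gam * x) (gam⁻¹ * y)) (Y (gam * x) (gam⁻¹ * y)) + d (gam * x) (gam⁻¹ * y))
    (x y : ℂ) (hx : ‖x‖ ≤ r) (hy : ‖y‖ ≤ r) (n : ℕ) :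
    (∫ t in (0 : ℝ)..1, d (ee t * x) (ee (-t) * y) * ee (-(((n : ℕ) : ℤ) * t))) *
        (1 - gam ^ n) =
      (FC s2 (x ^ 3 * y) 2 n - FC s2' (x * y ^ 3) (-2) n +
        FC s4 (x ^ 5 * y) 4 n - FC s4' (x * y ^ 5) (-4) n) +
      (FC s2 ((gam⁻¹ * X x y) ^ 3 * (gam * Y x y)) (-2) n -
        FC s2' ((gam⁻¹ * X x y) * (gam * Y x y) ^ 3) 2 n +
        FC s4 ((gam⁻¹ * X x y) ^ 5 * (gam * Y x y)) (-4) n -
        FC s4' ((gam⁻¹ * X x y) * (gam * Y x y) ^ 5) 4 n) := by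
  have hrot : ∀ t : ℝ, ‖ee t * x‖ ≤ r ∧ ‖ee (-t) * y‖ ≤ r := by
    intro t
    rw [norm_mul, norm_mul, norm_ee, norm_ee, one_mul, one_mul]
    exact ⟨hx, hy⟩
  obtain ⟨T, hT⟩ : ∃ T : ℝ → ℂ, T = fun t => d (ee t * x) (ee (-t) * y) := ⟨_, rfl⟩
  have hTc : Continuous T := by rw [hT]; exact hdc x y hx hy
  have hTper : ∀ t, T (t + 1) = T t := by
    intro t
    rw [hT]
    show d (ee (t + 1) * x) (ee (-(t + 1)) * y) = d (ee t * x) (ee (-t) * y)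
    rw [ee_add, ee_one, mul_one, neg_add, ee_add, ee_neg 1, ee_one, inv_one, mul_one]
  -- the equation along the orbit
  have hTfun : ∀ t, T t = aa (ee t * x) (ee (-t) * y) +
      aa (ee (-t) * (gam⁻¹ * X x y)) (ee t * (gam * Y x y)) + T (t + theta) := by
    intro t
    have h1 := hfun (ee t * x) (ee (-t) * y) (hrot t).1 (hrot t).2
    have e1 : gam * (ee t * x) = ee (t + theta) * x := by rw [← mul_assoc, ee_mul_gam]
    have e2 : gam⁻¹ * (ee (-t) * y) = ee (-(t + theta)) * y := by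
      rw [← mul_assoc, ee_mul_gam_inv]
    rw [e1, e2, hXe x y hx hy, hYe x y hx hy] at h1
    have e3 : ee (-(t + theta)) * X x y = ee (-t) * (gam⁻¹ * X x y) := by
      rw [← ee_mul_gam_inv]; ring
    have e4 : ee (t + theta) * Y x y = ee t * (gam * Y x y) := by
      rw [← ee_mul_gam]; ring
    rw [e3, e4] at h1
    rw [hT]
    exact h1
  -- the shifted integral
  have hshift : ∫ t in (0 : ℝ)..1, T (t + theta) * ee (-(((n : ℕ) : ℤ) * t)) =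
      gam ^ n * ∫ t in (0 : ℝ)..1, T t * ee (-(((n : ℕ) : ℤ) * t)) := by
    obtain ⟨U, hU⟩ : ∃ U : ℝ → ℂ, U = fun t => T t * ee (-(((n : ℕ) : ℤ) * t)) := ⟨_, rfl⟩
    have hUper : Function.Periodic U 1 := by
      intro t
      rw [hU]
      show T (t + 1) * ee (-(((n : ℕ) : ℤ) * (t + 1))) = T t * ee (-(((n : ℕ) : ℤ) * t))
      have : -((((n : ℕ) : ℤ) : ℝ) * (t + 1)) = -(((n : ℕ) : ℤ) * t) + ((-(n : ℤ) : ℤ) : ℝ) := by
        push_cast; ring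
      rw [hTper, this, ee_add, ee_int, mul_one]
    have h1 : ∀ t : ℝ, T (t + theta) * ee (-(((n : ℕ) : ℤ) * t)) = gam ^ n * U (t + theta) := by
      intro t
      rw [hU]
      show _ = gam ^ n * (T (t + theta) * ee (-(((n : ℕ) : ℤ) * (t + theta))))
      have h2 : ee (-(((n : ℕ) : ℤ) * t)) = gam ^ n * ee (-(((n : ℕ) : ℤ) * (t + theta))) := by
        rw [← ee_nat_theta, ← ee_add]
        congr 1
        push_cast
        ring
      rw [h2]; ring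
    simp only [h1]
    rw [intervalIntegral.integral_const_mul, intervalIntegral.integral_comp_add_right]
    congr 1
    have h3 := hUper.intervalIntegral_add_eq theta 0
    rw [zero_add] at h3
    rw [zero_add, add_comm 1 theta, h3, hU]
  have hx1 : ‖x‖ < 1 := hx.trans_lt hr
  have hy1 : ‖y‖ < 1 := hy.trans_lt hr
  have hX' : ‖gam⁻¹ * X x y‖ < 1 := by
    rw [norm_mul, norm_inv, norm_gam, inv_one, one_mul]; exact hX1 x y hx hy
  have hY' : ‖gam * Y x y‖ < 1 := by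
    rw [norm_mul, norm_gam, one_mul]; exact hY1 x y hx hy
  have i1 := fourier_aa 1 hx1 hy1 n
  have i2 := fourier_aa (-1) hX' hY' n
  have k1 := continuous_aa_rot 1 hx1 hy1 n
  have k2 := continuous_aa_rot (-1) hX' hY' n
  have k3 : Continuous fun t : ℝ => T (t + theta) * ee (-(((n : ℕ) : ℤ) * t)) :=
    (hTc.comp (by fun_prop)).mul (continuous_ee.comp (by fun_prop))
  have hint : ∫ t in (0 : ℝ)..1, T t * ee (-(((n : ℕ) : ℤ) * t)) =
      (∫ t in (0 : ℝ)..1, aa (ee (((1 : ℤ) : ℝ) * t) * x) (ee (-(((1 : ℤ) : ℝ) * t)) * y) *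
        ee (-(((n : ℕ) : ℤ) * t))) +
      (∫ t in (0 : ℝ)..1, aa (ee (((-1 : ℤ) : ℝ) * t) * (gam⁻¹ * X x y))
        (ee (-(((-1 : ℤ) : ℝ) * t)) * (gam * Y x y)) * ee (-(((n : ℕ) : ℤ) * t))) +
      ∫ t in (0 : ℝ)..1, T (t + theta) * ee (-(((n : ℕ) : ℤ) * t)) := by
    obtain ⟨g1, hg1⟩ : ∃ g1 : ℝ → ℂ, g1 = fun t : ℝ =>
      aa (ee (((1 : ℤ) : ℝ) * t) * x) (ee (-(((1 : ℤ) : ℝ) * t)) * y) *
        ee (-(((n : ℕ) : ℤ) * t)) := ⟨_, rfl⟩
    obtain ⟨g2, hg2⟩ : ∃ g2 : ℝ → ℂ, g2 = fun t : ℝ =>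
      aa (ee (((-1 : ℤ) : ℝ) * t) * (gam⁻¹ * X x y))
        (ee (-(((-1 : ℤ) : ℝ) * t)) * (gam * Y x y)) * ee (-(((n : ℕ) : ℤ) * t)) := ⟨_, rfl⟩
    have k1' : Continuous g1 := by rw [hg1]; exact k1
    have k2' : Continuous g2 := by rw [hg2]; exact k2
    have k12 : Continuous fun t => g1 t + g2 t := k1'.add k2'
    rw [← hg1, ← hg2, ← intervalIntegral.integral_add (k1'.intervalIntegrable _ _)
      (k2'.intervalIntegrable _ _), ← intervalIntegral.integral_add (k12.intervalIntegrable _ _)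
        (k3.intervalIntegrable _ _)]
    refine intervalIntegral.integral_congr fun t _ => ?_
    simp only [hg1, hg2]
    rw [hTfun t]
    have e1 : (((1 : ℤ) : ℝ) * t) = t := by push_cast; ring
    have e2 : (((-1 : ℤ) : ℝ) * t) = -t := by push_cast; ring
    rw [e1, e2, neg_neg]
    ring
  have hTd : ∫ t in (0 : ℝ)..1, d (ee t * x) (ee (-t) * y) * ee (-(((n : ℕ) : ℤ) * t)) =
      ∫ t in (0 : ℝ)..1, T t * ee (-(((n : ℕ) : ℤ) * t)) := by rw [hT]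
  rw [hTd]
  rw [hshift, i1, i2] at hint
  norm_num at hint ⊢
  linear_combination hint

end Pool.Agent.V1172.FR
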