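import Pool.Agent.V1172.FR.PS

/-!
The germ `f` and its reverser `h`.
-/

set_option autoImplicit false

open Set Filter Topology Metric

namespace Pool.Agent.V1172.FR

/-- The coefficients `β_l (1 - γ^{2 M_l})`, and so on. -/
noncomputable def s2 (l : ℕ) : ℂ := beta l * (1 - (gam ^ Mseq l) ^ 2)
noncomputable def s2' (l : ℕ) : ℂ := beta l * (1 - (gam⁻¹ ^ Mseq l) ^ 2)
noncomputable def s4 (l : ℕ) : ℂ := beta l * (1 - (gam ^ Mseq l) ^ 4)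
noncomputable def s4' (l : ℕ) : ℂ := beta l * (1 - (gam⁻¹ ^ Mseq l) ^ 4)
noncomputable def t1 (l : ℕ) : ℂ := beta l * (1 + gam ^ Mseq l)
noncomputable def t3 (l : ℕ) : ℂ := beta l * (1 + (gam ^ Mseq l) ^ 3)
noncomputable def t5 (l : ℕ) : ℂ := beta l * (1 + (gam ^ Mseq l) ^ 5)

theorem gam_ne : gam ≠ 0 := by
  intro h
  have := norm_gam
  rw [h, norm_zero] at this
  exact zero_ne_one this

theorem small' (l : ℕ) : beta l * ‖1 + gam ^ Mseq l‖ ≤ 1 := small l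

theorem norm_beta (l : ℕ) : ‖((beta l : ℝ) : ℂ)‖ = beta l := by
  rw [Complex.norm_real, Real.norm_eq_abs, abs_of_pos (beta_pos l)]

/-- A general bound. -/
theorem coeff_bd (P : ℂ → ℂ) (C : ℝ) (hC : 0 ≤ C) (σ : ℕ → ℂ)
    (hσ : ∀ l, ‖σ l‖ = beta l * ‖1 + gam ^ Mseq l‖ * ‖P (gam ^ Mseq l)‖)
    (hP : ∀ l, ‖P (gam ^ Mseq l)‖ ≤ C) : Bd σ := by
  refine ⟨C, hC, fun l => ?_⟩
  rw [hσ]
  calc beta l * ‖1 + gam ^ Mseq l‖ * ‖P (gam ^ Mseq l)‖ ≤ 1 * C :=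
        mul_le_mul (small' l) (hP l) (norm_nonneg _) zero_le_one
    _ = C := one_mul C

theorem norm_gpow (l : ℕ) : ‖gam ^ Mseq l‖ = 1 := by rw [norm_pow, norm_gam, one_pow]

theorem bd_s2 : Bd s2 := by
  refine coeff_bd (fun g => 1 - g) 2 (by norm_num) _ (fun l => ?_) (fun l => ?_)
  · have : s2 l = (beta l : ℂ) * ((1 + gam ^ Mseq l) * (1 - gam ^ Mseq l)) := by
      unfold s2; ring
    rw [this, norm_mul, norm_mul, norm_beta]; ring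
  · refine (norm_sub_le _ _).trans ?_
    rw [norm_one, norm_gpow]; norm_num

theorem inv_pow_eq (l : ℕ) : gam⁻¹ ^ Mseq l * gam ^ Mseq l = 1 := by
  rw [← mul_pow, inv_mul_cancel₀ gam_ne, one_pow]

theorem norm_ginvpow (l : ℕ) : ‖gam⁻¹ ^ Mseq l‖ = 1 := by
  rw [norm_pow, norm_inv, norm_gam, inv_one, one_pow]

theorem bd_s2' : Bd s2' := by
  refine coeff_bd (fun g => 1 - g) 2 (by norm_num) _ (fun l => ?_) (fun l => ?_)
  · have h1 := inv_pow_eq l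
    have : s2' l = (beta l : ℂ) * ((1 + gam ^ Mseq l) * (1 - gam ^ Mseq l)) *
        (-(gam⁻¹ ^ Mseq l) ^ 2) := by
      unfold s2'
      linear_combination (beta l : ℂ) * (1 + gam⁻¹ ^ Mseq l * gam ^ Mseq l) * (-1) * h1
    rw [this, norm_mul, norm_mul, norm_mul, norm_beta, norm_neg, norm_pow, norm_ginvpow]; ring
  · refine (norm_sub_le _ _).trans ?_
    rw [norm_one, norm_gpow]; norm_num

theorem bd_s4 : Bd s4 := by
  refine coeff_bd (fun g => (1 - g) * (1 + g ^ 2)) 4 (by norm_num) _ (fun l => ?_) (fun l => ?_)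
  · have : s4 l = (beta l : ℂ) * ((1 + gam ^ Mseq l) * ((1 - gam ^ Mseq l) *
        (1 + (gam ^ Mseq l) ^ 2))) := by
      unfold s4; ring
    rw [this, norm_mul, norm_mul, norm_beta]; ring
  · rw [norm_mul]
    have h1 : ‖1 - gam ^ Mseq l‖ ≤ 2 := by
      refine (norm_sub_le _ _).trans ?_
      rw [norm_one, norm_gpow]; norm_num
    have h2 : ‖1 + (gam ^ Mseq l) ^ 2‖ ≤ 2 := by
      refine (norm_add_le _ _).trans ?_
      rw [norm_one, norm_pow, norm_gpow]; norm_num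
    calc _ ≤ (2 : ℝ) * 2 := mul_le_mul h1 h2 (norm_nonneg _) (by norm_num)
      _ = 4 := by norm_num

theorem bd_s4' : Bd s4' := by
  refine coeff_bd (fun g => (1 - g) * (1 + g ^ 2)) 4 (by norm_num) _ (fun l => ?_) (fun l => ?_)
  · have h1 := inv_pow_eq l
    obtain ⟨g, hg⟩ : ∃ g, g = gam ^ Mseq l := ⟨_, rfl⟩
    obtain ⟨g', hg'⟩ : ∃ g', g' = gam⁻¹ ^ Mseq l := ⟨_, rfl⟩
    rw [← hg, ← hg'] at h1
    have : s4' l = (beta l : ℂ) * ((1 + gam ^ Mseq l) * ((1 - gam ^ Mseq l) *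
        (1 + (gam ^ Mseq l) ^ 2))) * (-(gam⁻¹ ^ Mseq l) ^ 4) := by
      unfold s4'
      rw [← hg, ← hg']
      have h2 : g' ^ 4 * g ^ 4 = 1 := by
        have : g' ^ 4 * g ^ 4 = (g' * g) ^ 4 := by ring
        rw [this, h1, one_pow]
      linear_combination (-(beta l : ℂ)) * h2
    rw [this, norm_mul, norm_mul, norm_mul, norm_beta, norm_neg, norm_pow, norm_ginvpow]; ring
  · rw [norm_mul]
    have h1 : ‖1 - gam ^ Mseq l‖ ≤ 2 := by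
      refine (norm_sub_le _ _).trans ?_
      rw [norm_one, norm_gpow]; norm_num
    have h2 : ‖1 + (gam ^ Mseq l) ^ 2‖ ≤ 2 := by
      refine (norm_add_le _ _).trans ?_
      rw [norm_one, norm_pow, norm_gpow]; norm_num
    calc _ ≤ (2 : ℝ) * 2 := mul_le_mul h1 h2 (norm_nonneg _) (by norm_num)
      _ = 4 := by norm_num

theorem bd_t1 : Bd t1 := by
  refine coeff_bd (fun _ => 1) 1 (by norm_num) _ (fun l => ?_) (fun l => by simp)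
  unfold t1
  rw [norm_mul, norm_beta, norm_one, mul_one]

theorem bd_t3 : Bd t3 := by
  refine coeff_bd (fun g => 1 - g + g ^ 2) 3 (by norm_num) _ (fun l => ?_) (fun l => ?_)
  · have : t3 l = (beta l : ℂ) * ((1 + gam ^ Mseq l) *
        (1 - gam ^ Mseq l + (gam ^ Mseq l) ^ 2)) := by
      unfold t3; ring
    rw [this, norm_mul, norm_mul, norm_beta]; ring
  · refine (norm_add_le _ _).trans ?_
    have h1 : ‖1 - gam ^ Mseq l‖ ≤ 2 := by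
      refine (norm_sub_le _ _).trans ?_
      rw [norm_one, norm_gpow]; norm_num
    rw [norm_pow, norm_gpow]
    linarith

theorem bd_t5 : Bd t5 := by
  refine coeff_bd (fun g => (1 - g) + (g ^ 2 - g ^ 3) + g ^ 4) 5 (by norm_num) _
    (fun l => ?_) (fun l => ?_)
  · have : t5 l = (beta l : ℂ) * ((1 + gam ^ Mseq l) *
        ((1 - gam ^ Mseq l) + ((gam ^ Mseq l) ^ 2 - (gam ^ Mseq l) ^ 3) +
          (gam ^ Mseq l) ^ 4)) := by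
      unfold t5; ring
    rw [this, norm_mul, norm_mul, norm_beta]; ring
  · refine (norm_add_le _ _).trans ?_
    have h1 : ‖1 - gam ^ Mseq l‖ ≤ 2 := by
      refine (norm_sub_le _ _).trans ?_
      rw [norm_one, norm_gpow]; norm_num
    have h2 : ‖(gam ^ Mseq l) ^ 2 - (gam ^ Mseq l) ^ 3‖ ≤ 2 := by
      refine (norm_sub_le _ _).trans ?_
      simp only [norm_pow, norm_gam, one_pow]; norm_num
    have h3 := norm_add_le (1 - gam ^ Mseq l) ((gam ^ Mseq l) ^ 2 - (gam ^ Mseq l) ^ 3)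
    rw [norm_pow, norm_gpow]
    linarith

/-- The cocycle of `f`. -/
noncomputable def aa (x y : ℂ) : ℂ :=
  PS s2 (x ^ 3 * y) - PS s2' (x * y ^ 3) + PS s4 (x ^ 5 * y) - PS s4' (x * y ^ 5)

/-- The cocycle of `h`. -/
noncomputable def cc (x y : ℂ) : ℂ :=
  PS t3 (x ^ 3 * y) - PS t1 (x * y ^ 3) + PS t5 (x ^ 5 * y) - PS t1 (x * y ^ 5)

theorem small_mon {x y : ℂ} (hx : ‖x‖ < 1) (hy : ‖y‖ < 1) :
    ‖x ^ 3 * y‖ < 1 ∧ ‖x * y ^ 3‖ < 1 ∧ ‖x ^ 5 * y‖ < 1 ∧ ‖x * y ^ 5‖ < 1 := by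
  have key : ∀ (a b : ℂ) (n : ℕ), ‖a‖ < 1 → ‖b‖ < 1 → ‖a ^ n * b‖ < 1 := by
    intro a b n ha hb
    rw [norm_mul, norm_pow]
    have h1 : ‖a‖ ^ n ≤ 1 := pow_le_one₀ (norm_nonneg _) ha.le
    calc ‖a‖ ^ n * ‖b‖ ≤ 1 * ‖b‖ := mul_le_mul_of_nonneg_right h1 (norm_nonneg _)
      _ < 1 := by rw [one_mul]; exact hb
  refine ⟨key x y 3 hx hy, ?_, key x y 5 hx hy, ?_⟩
  · rw [mul_comm]; exact key y x 3 hy hx
  · rw [mul_comm]; exact key y x 5 hy hx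

/-- The cocycle identity. -/
theorem cocycle {x y : ℂ} (hx : ‖x‖ < 1) (hy : ‖y‖ < 1) :
    aa (gam⁻¹ * y) (gam ^ 2 * x) + cc (gam * x) (gam⁻¹ * y) + aa x y = cc x y := by
  obtain ⟨h1, h2, h3, h4⟩ := small_mon hx hy
  have hg := gam_ne
  have hn : ‖gam⁻¹‖ = 1 := by rw [norm_inv, norm_gam, inv_one]
  have hn' : ∀ k : ℕ, ‖gam ^ k‖ = 1 := fun k => by rw [norm_pow, norm_gam, one_pow]
  have hni : ∀ k : ℕ, ‖gam⁻¹ ^ k‖ = 1 := fun k => by rw [norm_pow, hn, one_pow]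
  unfold aa cc
  -- rewrite the monomials
  have e1 : (gam⁻¹ * y) ^ 3 * (gam ^ 2 * x) = gam⁻¹ * (x * y ^ 3) := by field_simp
  have e2 : (gam⁻¹ * y) * (gam ^ 2 * x) ^ 3 = gam ^ 5 * (x ^ 3 * y) := by field_simp
  have e3 : (gam⁻¹ * y) ^ 5 * (gam ^ 2 * x) = gam⁻¹ ^ 3 * (x * y ^ 5) := by field_simp
  have e4 : (gam⁻¹ * y) * (gam ^ 2 * x) ^ 5 = gam ^ 9 * (x ^ 5 * y) := by field_simp
  have e5 : (gam * x) ^ 3 * (gam⁻¹ * y) = gam ^ 2 * (x ^ 3 * y) := by field_simp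
  have e6 : (gam * x) * (gam⁻¹ * y) ^ 3 = gam⁻¹ ^ 2 * (x * y ^ 3) := by field_simp
  have e7 : (gam * x) ^ 5 * (gam⁻¹ * y) = gam ^ 4 * (x ^ 5 * y) := by field_simp
  have e8 : (gam * x) * (gam⁻¹ * y) ^ 5 = gam⁻¹ ^ 4 * (x * y ^ 5) := by field_simp
  rw [e1, e2, e3, e4, e5, e6, e7, e8]
  rw [PS_mul s2 gam⁻¹ (x * y ^ 3), PS_mul s2' (gam ^ 5) (x ^ 3 * y),
    PS_mul s4 (gam⁻¹ ^ 3) (x * y ^ 5), PS_mul s4' (gam ^ 9) (x ^ 5 * y),
    PS_mul t3 (gam ^ 2) (x ^ 3 * y), PS_mul t1 (gam⁻¹ ^ 2) (x * y ^ 3),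
    PS_mul t5 (gam ^ 4) (x ^ 5 * y), PS_mul t1 (gam⁻¹ ^ 4) (x * y ^ 5)]
  -- the four identities
  have k1 : PS t3 (x ^ 3 * y) = PS s2 (x ^ 3 * y) -
      PS (fun l => s2' l * (gam ^ 5) ^ Mseq l) (x ^ 3 * y) +
      PS (fun l => t3 l * (gam ^ 2) ^ Mseq l) (x ^ 3 * y) := by
    rw [← PS_sub bd_s2 (bd_s2'.mul_pow (hn' 5)) h1,
      ← PS_add (bd_s2.sub (bd_s2'.mul_pow (hn' 5))) (bd_t3.mul_pow (hn' 2)) h1]
    congr 1
    funext l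
    have hi := inv_pow_eq l
    unfold t3 s2 s2'
    rw [pow_right_comm gam 5, pow_right_comm gam 2]
    obtain ⟨g, hgd⟩ : ∃ g, g = gam ^ Mseq l := ⟨_, rfl⟩
    obtain ⟨g', hgd'⟩ : ∃ g', g' = gam⁻¹ ^ Mseq l := ⟨_, rfl⟩
    rw [← hgd, ← hgd'] at hi ⊢
    have h2 : g' ^ 2 * g ^ 2 = 1 := by
      have : g' ^ 2 * g ^ 2 = (g' * g) ^ 2 := by ring
      rw [this, hi, one_pow]
    linear_combination (-(beta l : ℂ)) * g ^ 3 * h2
  have k2 : PS t1 (x * y ^ 3) = PS s2' (x * y ^ 3) -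
      PS (fun l => s2 l * gam⁻¹ ^ Mseq l) (x * y ^ 3) +
      PS (fun l => t1 l * (gam⁻¹ ^ 2) ^ Mseq l) (x * y ^ 3) := by
    rw [← PS_sub bd_s2' (bd_s2.mul_pow hn) h2,
      ← PS_add (bd_s2'.sub (bd_s2.mul_pow hn)) (bd_t1.mul_pow (hni 2)) h2]
    congr 1
    funext l
    have hi := inv_pow_eq l
    unfold t1 s2 s2'
    rw [pow_right_comm gam⁻¹ 2]
    obtain ⟨g, hgd⟩ : ∃ g, g = gam ^ Mseq l := ⟨_, rfl⟩
    obtain ⟨g', hgd'⟩ : ∃ g', g' = gam⁻¹ ^ Mseq l := ⟨_, rfl⟩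
    rw [← hgd, ← hgd'] at hi ⊢
    linear_combination (-(beta l : ℂ)) * (g + g') * hi
  have k3 : PS t5 (x ^ 5 * y) = PS s4 (x ^ 5 * y) -
      PS (fun l => s4' l * (gam ^ 9) ^ Mseq l) (x ^ 5 * y) +
      PS (fun l => t5 l * (gam ^ 4) ^ Mseq l) (x ^ 5 * y) := by
    rw [← PS_sub bd_s4 (bd_s4'.mul_pow (hn' 9)) h3,
      ← PS_add (bd_s4.sub (bd_s4'.mul_pow (hn' 9))) (bd_t5.mul_pow (hn' 4)) h3]
    congr 1
    funext l
    have hi := inv_pow_eq l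
    unfold t5 s4 s4'
    rw [pow_right_comm gam 9, pow_right_comm gam 4]
    obtain ⟨g, hgd⟩ : ∃ g, g = gam ^ Mseq l := ⟨_, rfl⟩
    obtain ⟨g', hgd'⟩ : ∃ g', g' = gam⁻¹ ^ Mseq l := ⟨_, rfl⟩
    rw [← hgd, ← hgd'] at hi ⊢
    have h2 : g' ^ 4 * g ^ 4 = 1 := by
      have : g' ^ 4 * g ^ 4 = (g' * g) ^ 4 := by ring
      rw [this, hi, one_pow]
    linear_combination (-(beta l : ℂ)) * g ^ 5 * h2
  have k4 : PS t1 (x * y ^ 5) = PS s4' (x * y ^ 5) -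
      PS (fun l => s4 l * (gam⁻¹ ^ 3) ^ Mseq l) (x * y ^ 5) +
      PS (fun l => t1 l * (gam⁻¹ ^ 4) ^ Mseq l) (x * y ^ 5) := by
    rw [← PS_sub bd_s4' (bd_s4.mul_pow (hni 3)) h4,
      ← PS_add (bd_s4'.sub (bd_s4.mul_pow (hni 3))) (bd_t1.mul_pow (hni 4)) h4]
    congr 1
    funext l
    have hi := inv_pow_eq l
    unfold t1 s4 s4'
    rw [pow_right_comm gam⁻¹ 3, pow_right_comm gam⁻¹ 4]
    obtain ⟨g, hgd⟩ : ∃ g, g = gam ^ Mseq l := ⟨_, rfl⟩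
    obtain ⟨g', hgd'⟩ : ∃ g', g' = gam⁻¹ ^ Mseq l := ⟨_, rfl⟩
    rw [← hgd, ← hgd'] at hi ⊢
    have h3 : g' ^ 3 * g ^ 3 = 1 := by
      have : g' ^ 3 * g ^ 3 = (g' * g) ^ 3 := by ring
      rw [this, hi, one_pow]
    linear_combination (-(beta l : ℂ)) * g * h3 - (beta l : ℂ) * g' ^ 3 * hi
  linear_combination -k1 + k2 - k3 + k4

end Pool.Agent.V1172.FR
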