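import Pool.Agent.V1172.FR.Maps
import Pool.Agent.V1172.FR.Final

/-!
The linear part of a reverser.
-/

set_option autoImplicit false

open Set Filter Topology Metric

namespace Pool.Agent.V1172.FR

/-- The eigenvalues of the linear part of `f`. -/
noncomputable def mu : Fin 4 → ℂ := ![gam, gam⁻¹, 2, 1 / 2]

theorem ff_line (i : Fin 4) (t : ℂ) : ff (t • Pi.single i (1 : ℂ)) = t • mu i • Pi.single i 1 := by
  fin_cases i
  · funext j
    fin_cases j <;> simp [ff, mu, mul_comm]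
  · funext j
    fin_cases j <;> simp [ff, mu, mul_comm]
  · funext j
    fin_cases j <;> simp [ff, mu, mul_comm, aa_zero]
  · funext j
    fin_cases j <;> simp [ff, mu, mul_comm, aa_zero]

theorem ff_deriv (i : Fin 4) : fderiv ℂ ff 0 (Pi.single i 1) = mu i • Pi.single i 1 := by
  have h1 : HasFDerivAt ff (fderiv ℂ ff 0) ((0 : ℂ) • (Pi.single i (1 : ℂ) : Fin 4 → ℂ)) := by
    rw [zero_smul]
    exact ff_analytic.differentiableAt.hasFDerivAt
  have h2 : HasDerivAt (fun t : ℂ => t • (Pi.single i (1 : ℂ) : Fin 4 → ℂ))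
      (Pi.single i (1 : ℂ)) 0 := by
    simpa using (hasDerivAt_id (0 : ℂ)).smul_const (Pi.single i (1 : ℂ) : Fin 4 → ℂ)
  have h3 := h1.comp_hasDerivAt (0 : ℂ) h2
  have h4 : HasDerivAt (fun t : ℂ => t • (mu i • (Pi.single i (1 : ℂ) : Fin 4 → ℂ)))
      (mu i • Pi.single i (1 : ℂ)) 0 := by
    simpa using (hasDerivAt_id (0 : ℂ)).smul_const (mu i • (Pi.single i (1 : ℂ) : Fin 4 → ℂ))
  have h5 : (ff ∘ fun t : ℂ => t • (Pi.single i (1 : ℂ) : Fin 4 → ℂ)) =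
      fun t : ℂ => t • (mu i • (Pi.single i (1 : ℂ) : Fin 4 → ℂ)) := by
    funext t
    exact ff_line i t
  rw [h5] at h3
  exact h3.unique h4

theorem sum_single (v : Fin 4 → ℂ) : v = ∑ i, v i • (Pi.single i (1 : ℂ) : Fin 4 → ℂ) := by
  funext j
  simp [Finset.sum_apply, Pi.single_apply]

theorem ff_deriv_apply (v : Fin 4 → ℂ) (j : Fin 4) : fderiv ℂ ff 0 v j = mu j * v j := by
  conv_lhs => rw [sum_single v]
  rw [map_sum, Finset.sum_apply]
  simp only [map_smul, ff_deriv, Pi.smul_apply, smul_eq_mul, Pi.single_apply]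
  rw [Finset.sum_eq_single j]
  · simp [mul_comm]
  · intro b _ hb
    rw [if_neg (Ne.symm hb)]; simp
  · simp

/-- Data of a reverser. -/
structure Rev (H G : (Fin 4 → ℂ) → (Fin 4 → ℂ)) (k : ℕ) : Prop where
  hH : AnalyticAt ℂ H 0
  hG : AnalyticAt ℂ G 0
  H0 : H 0 = 0
  G0 : G 0 = 0
  GH : G ∘ H =ᶠ[𝓝 (0 : Fin 4 → ℂ)] id
  rev : ff ∘ H ∘ ff =ᶠ[𝓝 (0 : Fin 4 → ℂ)] H
  hk : 0 < k
  iter : H^[k] =ᶠ[𝓝 (0 : Fin 4 → ℂ)] id

theorem Rev.flf {H G : (Fin 4 → ℂ) → (Fin 4 → ℂ)} {k : ℕ} (h : Rev H G k) (v : Fin 4 → ℂ) :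
    fderiv ℂ ff 0 (fderiv ℂ H 0 (fderiv ℂ ff 0 v)) = fderiv ℂ H 0 v := by
  have h1 : HasFDerivAt ff (fderiv ℂ ff 0) 0 := ff_analytic.differentiableAt.hasFDerivAt
  have h2 : HasFDerivAt H (fderiv ℂ H 0) (ff 0) := by
    rw [ff_zero]; exact h.hH.differentiableAt.hasFDerivAt
  have h3 : HasFDerivAt ff (fderiv ℂ ff 0) ((H ∘ ff) 0) := by
    simp only [Function.comp, ff_zero, h.H0]
    exact h1
  have h4 := h3.comp (0 : Fin 4 → ℂ) (h2.comp (0 : Fin 4 → ℂ) h1)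
  have h5 : HasFDerivAt H (fderiv ℂ H 0) 0 := h.hH.differentiableAt.hasFDerivAt
  have h6 := (h4.congr_of_eventuallyEq h.rev.symm).unique h5
  have h7 := congrArg (fun L : (Fin 4 → ℂ) →L[ℂ] (Fin 4 → ℂ) => L v) h6
  simpa using h7

theorem Rev.comp_zero {H G : (Fin 4 → ℂ) → (Fin 4 → ℂ)} {k : ℕ} (h : Rev H G k) (i j : Fin 4)
    (hij : mu i * mu j ≠ 1) : fderiv ℂ H 0 (Pi.single i 1) j = 0 := by
  have h1 := h.flf (Pi.single i 1)
  have h2 := congrFun h1 j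
  rw [ff_deriv_apply, ff_deriv, map_smul, Pi.smul_apply, smul_eq_mul] at h2
  have h3 : (mu i * mu j - 1) * fderiv ℂ H 0 (Pi.single i 1) j = 0 := by linear_combination h2
  rcases mul_eq_zero.1 h3 with h4 | h4
  · exact absurd (sub_eq_zero.1 h4) hij
  · exact h4

theorem gam_sq_ne : gam * gam ≠ 1 := by
  have := gam_pow_ne_one (k := 2) (by norm_num)
  rwa [pow_two] at this

theorem gam_inv_sq_ne : gam⁻¹ * gam⁻¹ ≠ 1 := by
  intro h
  apply gam_sq_ne
  have hg := gam_ne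
  field_simp at h
  rw [← pow_two, ← h]

theorem norm_ne {a b : ℂ} (h : ‖a‖ * ‖b‖ ≠ 1) : a * b ≠ 1 := by
  intro h'
  apply h
  rw [← norm_mul, h', norm_one]

theorem norm_gam_inv : ‖gam⁻¹‖ = 1 := by rw [norm_inv, norm_gam, inv_one]

theorem Rev.L0 {H G : (Fin 4 → ℂ) → (Fin 4 → ℂ)} {k : ℕ} (h : Rev H G k) :
    fderiv ℂ H 0 (Pi.single 0 1) = (fderiv ℂ H 0 (Pi.single 0 1) 1) • Pi.single 1 1 := by
  have h0 := h.comp_zero 0 0 (by simpa [mu] using gam_sq_ne)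
  have h2 := h.comp_zero 0 2 (by
    simp only [mu, Matrix.cons_val]
    exact norm_ne (by rw [norm_gam]; norm_num))
  have h3 := h.comp_zero 0 3 (by
    simp only [mu, Matrix.cons_val]
    exact norm_ne (by rw [norm_gam]; norm_num))
  funext j
  fin_cases j
  · simpa using h0
  · simp
  · simpa using h2
  · simpa using h3

theorem Rev.L1 {H G : (Fin 4 → ℂ) → (Fin 4 → ℂ)} {k : ℕ} (h : Rev H G k) :
    fderiv ℂ H 0 (Pi.single 1 1) = (fderiv ℂ H 0 (Pi.single 1 1) 0) • Pi.single 0 1 := by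
  have h1 := h.comp_zero 1 1 (by simpa [mu] using gam_inv_sq_ne)
  have h2 := h.comp_zero 1 2 (by
    simp only [mu, Matrix.cons_val]
    exact norm_ne (by rw [norm_gam_inv]; norm_num))
  have h3 := h.comp_zero 1 3 (by
    simp only [mu, Matrix.cons_val]
    exact norm_ne (by rw [norm_gam_inv]; norm_num))
  funext j
  fin_cases j
  · simp
  · simpa using h1
  · simpa using h2
  · simpa using h3

theorem Rev.L2 {H G : (Fin 4 → ℂ) → (Fin 4 → ℂ)} {k : ℕ} (h : Rev H G k) :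
    fderiv ℂ H 0 (Pi.single 2 1) = (fderiv ℂ H 0 (Pi.single 2 1) 3) • Pi.single 3 1 := by
  have h0 := h.comp_zero 2 0 (by
    simp only [mu, Matrix.cons_val]
    exact norm_ne (by rw [norm_gam]; norm_num))
  have h1 := h.comp_zero 2 1 (by
    simp only [mu, Matrix.cons_val]
    exact norm_ne (by rw [norm_gam_inv]; norm_num))
  have h2 := h.comp_zero 2 2 (by
    simp only [mu, Matrix.cons_val]
    norm_num)
  funext j
  fin_cases j
  · simpa using h0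
  · simpa using h1
  · simpa using h2
  · simp

theorem Rev.omega_ne {H G : (Fin 4 → ℂ) → (Fin 4 → ℂ)} {k : ℕ} (h : Rev H G k) :
    fderiv ℂ H 0 (Pi.single 2 1) 3 ≠ 0 := by
  intro h0
  have h1 := h.L2
  rw [h0, zero_smul] at h1
  have k1 : HasFDerivAt H (fderiv ℂ H 0) 0 := h.hH.differentiableAt.hasFDerivAt
  have k2 : HasFDerivAt G (fderiv ℂ G 0) (H 0) := by
    rw [h.H0]; exact h.hG.differentiableAt.hasFDerivAt
  have k3 := k2.comp (0 : Fin 4 → ℂ) k1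
  have k4 := (k3.congr_of_eventuallyEq h.GH.symm).unique (hasFDerivAt_id (0 : Fin 4 → ℂ))
  have k5 := congrArg (fun L : (Fin 4 → ℂ) →L[ℂ] (Fin 4 → ℂ) => L (Pi.single 2 1) 2) k4
  simp [h1] at k5

theorem Rev.cpow {H G : (Fin 4 → ℂ) → (Fin 4 → ℂ)} {k : ℕ} (h : Rev H G k) :
    (fderiv ℂ H 0 (Pi.single 1 1) 0 * fderiv ℂ H 0 (Pi.single 0 1) 1) ^ k = 1 := by
  obtain ⟨L, hL⟩ : ∃ L, L = fderiv ℂ H 0 := ⟨_, rfl⟩
  have k1 : HasFDerivAt H (fderiv ℂ H 0) 0 := h.hH.differentiableAt.hasFDerivAt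
  have k2 := k1.iterate h.H0 k
  have k3 := (k2.congr_of_eventuallyEq h.iter.symm).unique (hasFDerivAt_id (0 : Fin 4 → ℂ))
  have h0 := h.L0
  have h1 := h.L1
  rw [← hL] at k3 h0 h1 ⊢
  have hsq : L (L (Pi.single 0 1)) = (L (Pi.single 1 1) 0 * L (Pi.single 0 1) 1) •
      (Pi.single 0 (1 : ℂ) : Fin 4 → ℂ) := by
    conv_lhs => rw [h0, map_smul, h1]
    rw [smul_smul, mul_comm]
  have hpow : ∀ m : ℕ, (L ^ (2 * m)) (Pi.single 0 1) =
      (L (Pi.single 1 1) 0 * L (Pi.single 0 1) 1) ^ m • (Pi.single 0 (1 : ℂ) : Fin 4 → ℂ) := by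
    intro m
    induction m with
    | zero => simp
    | succ m ih =>
      have : L ^ (2 * (m + 1)) = L ^ 2 * L ^ (2 * m) := by rw [← pow_add]; congr 1; ring
      rw [this]
      change (L ^ 2) ((L ^ (2 * m)) (Pi.single 0 1)) = _
      rw [ih, map_smul, pow_two L]
      change _ • L (L (Pi.single 0 1)) = _
      rw [hsq, smul_smul, pow_succ]
  have h2 := hpow k
  have h3 : L ^ (2 * k) = 1 := by
    rw [mul_comm, pow_mul, k3]
    exact one_pow 2
  rw [h3] at h2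
  have h4 := congrFun h2 0
  simpa using h4.symm

end Pool.Agent.V1172.FR
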