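import Pool.Agent.V1172.FR.Lin

/-!
The local analysis of a reverser.
-/

set_option autoImplicit false

open Set Filter Topology Metric

namespace Pool.Agent.V1172.FR

/-- A continuous function with periods `1` and `θ` is constant. -/
theorem const_of_periods {φ : ℝ → ℂ} (hφ : Continuous φ) (h1 : ∀ t, φ (t + 1) = φ t)
    (h2 : ∀ t, φ (t + theta) = φ t) (t : ℝ) : φ t = φ 0 := by
  obtain ⟨S, hS⟩ : ∃ S : AddSubgroup ℝ, ∀ s, s ∈ S ↔ ∀ t, φ (t + s) = φ t := by
    refine ⟨{ carrier := {s | ∀ t, φ (t + s) = φ t}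
              add_mem' := ?_
              zero_mem' := ?_
              neg_mem' := ?_ }, fun s => Iff.rfl⟩
    · intro a b ha hb t
      rw [← add_assoc, hb, ha]
    · intro t
      rw [add_zero]
    · intro a ha t
      have := ha (t + -a)
      rw [← this]
      congr 1
      ring
  have hcl : IsClosed (S : Set ℝ) := by
    have : (S : Set ℝ) = ⋂ t : ℝ, {s | φ (t + s) = φ t} := by
      ext s
      simp only [SetLike.mem_coe, hS, mem_iInter, Set.mem_ofPred_eq]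
    rw [this]
    refine isClosed_iInter fun t => isClosed_eq (hφ.comp (by fun_prop)) continuous_const
  have hsub : (AddSubgroup.closure {theta, (1 : ℝ)} : Set ℝ) ⊆ S := by
    rw [SetLike.coe_subset_coe, AddSubgroup.closure_le]
    intro s hs
    rcases hs with hs | hs
    · rw [SetLike.mem_coe, hS, hs]; exact h2
    · rw [SetLike.mem_coe, hS, mem_singleton_iff.1 hs]; exact h1
  have hd : Dense (AddSubgroup.closure {theta, (1 : ℝ)} : Set ℝ) := by
    rw [dense_addSubgroupClosure_pair_iff, div_one]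
    exact irrational_theta
  have hall : (S : Set ℝ) = univ := by
    rw [← hcl.closure_eq]
    exact (hd.mono hsub).closure_eq
  have : t ∈ S := by rw [← SetLike.mem_coe, hall]; exact mem_univ t
  have h3 := (hS t).1 this 0
  rwa [zero_add] at h3

/-- The embedding of the plane. -/
def io (x y : ℂ) : Fin 4 → ℂ := ![x, y, 0, 0]

theorem io_0 (x y : ℂ) : io x y 0 = x := rfl

theorem io_1 (x y : ℂ) : io x y 1 = y := rfl

theorem norm_vec_lt {x y z w : ℂ} {R : ℝ} (hx : ‖x‖ < R) (hy : ‖y‖ < R) (hz : ‖z‖ < R)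
    (hw : ‖w‖ < R) : ‖(![x, y, z, w] : Fin 4 → ℂ)‖ < R := by
  rw [pi_norm_lt_iff ((norm_nonneg x).trans_lt hx)]
  intro i
  fin_cases i
  · exact hx
  · exact hy
  · exact hz
  · exact hw

theorem norm_io {x y : ℂ} {R : ℝ} (hx : ‖x‖ < R) (hy : ‖y‖ < R) : ‖io x y‖ < R :=
  norm_vec_lt hx hy (by rw [norm_zero]; exact (norm_nonneg x).trans_lt hx)
    (by rw [norm_zero]; exact (norm_nonneg x).trans_lt hx)

theorem ff_vec (x y t : ℂ) : ff ![x, y, t, 0] =
    ![gam * x, gam⁻¹ * y, 2 * Complex.exp (aa x y) * t, 0] := by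
  funext i
  fin_cases i <;> simp [ff]

theorem ff_io (x y : ℂ) : ff (io x y) = io (gam * x) (gam⁻¹ * y) := by
  unfold io
  rw [ff_vec, mul_zero]

/-- The good radius. -/
structure Good (H : (Fin 4 → ℂ) → (Fin 4 → ℂ)) (ω : ℂ) (R : ℝ) : Prop where
  hR0 : 0 < R
  hR1 : R ≤ 1
  an : ∀ p : Fin 4 → ℂ, ‖p‖ < R → AnalyticAt ℂ H p
  rev : ∀ p : Fin 4 → ℂ, ‖p‖ < R → ff (H (ff p)) = H p
  small : ∀ p : Fin 4 → ℂ, ‖p‖ < R → ‖H p‖ < 1 / 2
  aH : ∀ p : Fin 4 → ℂ, ‖p‖ < R → ‖aa (H p 0) (H p 1)‖ ≤ 1 / 10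
  ap : ∀ p : Fin 4 → ℂ, ‖p‖ < R → ‖aa (p 0) (p 1)‖ ≤ 1 / 10
  der : ∀ p : Fin 4 → ℂ, ‖p‖ < R → ‖fderiv ℂ H p (Pi.single 2 1) 3 / ω - 1‖ ≤ 1 / 10

theorem Rev.good {H G : (Fin 4 → ℂ) → (Fin 4 → ℂ)} {k : ℕ} (h : Rev H G k) :
    ∃ R, Good H (fderiv ℂ H 0 (Pi.single 2 1) 3) R := by
  have hω := h.omega_ne
  have hHc : ContinuousAt H 0 := h.hH.continuousAt
  have e1 := h.hH.eventually_analyticAt
  have e2 : ∀ᶠ p in 𝓝 (0 : Fin 4 → ℂ), ff (H (ff p)) = H p := h.rev
  have e3 : ∀ᶠ p in 𝓝 (0 : Fin 4 → ℂ), ‖H p‖ < 1 / 2 := by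
    have : ContinuousAt (fun p => ‖H p‖) 0 := hHc.norm
    refine this.eventually_lt continuousAt_const ?_
    rw [h.H0, norm_zero]; norm_num
  have hA : AnalyticAt ℂ (fun p => aa (H p 0) (H p 1)) 0 := by
    refine aa_analytic ((analyticAt_pi_iff.1 h.hH) 0) ((analyticAt_pi_iff.1 h.hH) 1) ?_ ?_
    · rw [h.H0]; simp
    · rw [h.H0]; simp
  have e4 : ∀ᶠ p in 𝓝 (0 : Fin 4 → ℂ), ‖aa (H p 0) (H p 1)‖ < 1 / 10 := by
    have : ContinuousAt (fun p => ‖aa (H p 0) (H p 1)‖) 0 := hA.continuousAt.norm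
    refine this.eventually_lt continuousAt_const ?_
    rw [h.H0]
    simp [aa_zero]
  have hB : AnalyticAt ℂ (fun p : Fin 4 → ℂ => aa (p 0) (p 1)) 0 :=
    aa_analytic (proj_analytic 0 0) (proj_analytic 1 0) (by simp) (by simp)
  have e5 : ∀ᶠ p in 𝓝 (0 : Fin 4 → ℂ), ‖aa (p 0) (p 1)‖ < 1 / 10 := by
    have : ContinuousAt (fun p : Fin 4 → ℂ => ‖aa (p 0) (p 1)‖) 0 := hB.continuousAt.norm
    refine this.eventually_lt continuousAt_const ?_
    simp [aa_zero]
  have hD : ContinuousAt (fun p => ‖fderiv ℂ H p (Pi.single 2 1) 3 /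
      (fderiv ℂ H 0 (Pi.single 2 1) 3) - 1‖) 0 := by
    have h1 : ContinuousAt (fderiv ℂ H) 0 := h.hH.fderiv.continuousAt
    have h2 : ContinuousAt (fun p => fderiv ℂ H p (Pi.single 2 1)) 0 :=
      h1.clm_apply continuousAt_const
    have h3 : ContinuousAt (fun p => fderiv ℂ H p (Pi.single 2 1) 3) 0 :=
      (continuousAt_pi.1 h2) 3
    exact ((h3.div_const _).sub continuousAt_const).norm
  have e6 := hD.eventually_lt (continuousAt_const (y := (1 / 10 : ℝ))) (by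
    rw [div_self hω]; simp)
  obtain ⟨R, hR, hRs⟩ := Metric.eventually_nhds_iff_ball.1
    (e1.and (e2.and (e3.and (e4.and (e5.and e6)))))
  have hb : ∀ p : Fin 4 → ℂ, ‖p‖ < min R 1 → p ∈ ball (0 : Fin 4 → ℂ) R := fun p hp =>
    mem_ball_zero_iff.2 (hp.trans_le (min_le_left _ _))
  exact ⟨min R 1, lt_min hR one_pos, min_le_right _ _,
    fun p hp => (hRs p (hb p hp)).1,
    fun p hp => (hRs p (hb p hp)).2.1,
    fun p hp => (hRs p (hb p hp)).2.2.1,
    fun p hp => (hRs p (hb p hp)).2.2.2.1.le,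
    fun p hp => (hRs p (hb p hp)).2.2.2.2.1.le,
    fun p hp => (hRs p (hb p hp)).2.2.2.2.2.le⟩

section

variable {H : (Fin 4 → ℂ) → (Fin 4 → ℂ)} {ω : ℂ} {R : ℝ}

theorem rot_lt {x : ℂ} {ζ : ℂ} (hζ : ‖ζ‖ = 1) (hx : ‖x‖ < R) : ‖ζ * x‖ < R := by
  rw [norm_mul, hζ, one_mul]; exact hx

theorem Good.eqv (g : Good H ω R) {x y : ℂ} (hx : ‖x‖ < R) (hy : ‖y‖ < R) :
    gam * H (io (gam * x) (gam⁻¹ * y)) 0 = H (io x y) 0 ∧
    gam⁻¹ * H (io (gam * x) (gam⁻¹ * y)) 1 = H (io x y) 1 ∧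
    1 / 2 * Complex.exp (aa (H (io (gam * x) (gam⁻¹ * y)) 0) (H (io (gam * x) (gam⁻¹ * y)) 1)) *
      H (io (gam * x) (gam⁻¹ * y)) 3 = H (io x y) 3 := by
  have h := g.rev (io x y) (norm_io hx hy)
  rw [ff_io] at h
  exact ⟨congrFun h 0, congrFun h 1, congrFun h 3⟩

theorem exp_tenth {z : ℂ} (hz : ‖z‖ ≤ 1 / 10) : ‖Complex.exp z‖ ≤ 6 / 5 := by
  rw [Complex.norm_exp]
  have h1 : z.re ≤ 1 / 10 := (Complex.re_le_norm z).trans hz
  have h2 : Real.exp z.re ≤ Real.exp (1 / 10) := Real.exp_le_exp.2 h1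
  have h3 := Real.add_one_le_exp (-(1 / 10) : ℝ)
  have h4 : Real.exp (1 / 10) * Real.exp (-(1 / 10)) = 1 := by
    rw [← Real.exp_add]; simp
  have h5 := Real.exp_pos (1 / 10)
  nlinarith

theorem Good.W_le (g : Good H ω R) (n : ℕ) : ∀ {x y : ℂ}, ‖x‖ < R → ‖y‖ < R →
    ‖H (io x y) 3‖ ≤ (3 / 5) ^ n := by
  induction n with
  | zero =>
    intro x y hx hy
    have h1 := g.small _ (norm_io hx hy)
    have h2 := norm_le_pi_norm (H (io x y)) 3
    rw [pow_zero]
    linarith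
  | succ n ih =>
    intro x y hx hy
    have hx' : ‖gam * x‖ < R := rot_lt norm_gam hx
    have hy' : ‖gam⁻¹ * y‖ < R := rot_lt norm_gam_inv hy
    obtain ⟨-, -, h3⟩ := g.eqv hx hy
    rw [← h3, norm_mul, norm_mul]
    have h4 := exp_tenth (g.aH _ (norm_io hx' hy'))
    have h5 := ih hx' hy'
    have h6 : ‖(1 / 2 : ℂ)‖ = 1 / 2 := by simp
    rw [h6, pow_succ]
    calc 1 / 2 * ‖Complex.exp (aa (H (io (gam * x) (gam⁻¹ * y)) 0)
          (H (io (gam * x) (gam⁻¹ * y)) 1))‖ * ‖H (io (gam * x) (gam⁻¹ * y)) 3‖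
        ≤ 1 / 2 * (6 / 5) * (3 / 5) ^ n :=
          mul_le_mul (mul_le_mul_of_nonneg_left h4 (by norm_num)) h5 (norm_nonneg _) (by norm_num)
      _ = (3 / 5) ^ n * (3 / 5) := by ring

theorem Good.W_zero (g : Good H ω R) {x y : ℂ} (hx : ‖x‖ < R) (hy : ‖y‖ < R) :
    H (io x y) 3 = 0 := by
  have h1 : Tendsto (fun n : ℕ => ((3 : ℝ) / 5) ^ n) atTop (𝓝 0) :=
    tendsto_pow_atTop_nhds_zero_of_lt_one (by norm_num) (by norm_num)
  have h2 := ge_of_tendsto' h1 (fun n => g.W_le n hx hy)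
  exact norm_le_zero_iff.1 h2

/-- The vertical derivative. -/
noncomputable def DD (H : (Fin 4 → ℂ) → (Fin 4 → ℂ)) (x y : ℂ) : ℂ :=
  fderiv ℂ H (io x y) (Pi.single 2 1) 3

theorem line_deriv (x y c : ℂ) : HasDerivAt (fun t : ℂ => (![x, y, c * t, 0] : Fin 4 → ℂ))
    (c • Pi.single 2 1) 0 := by
  rw [hasDerivAt_pi]
  intro i
  fin_cases i
  · simpa using hasDerivAt_const (0 : ℂ) x
  · simpa using hasDerivAt_const (0 : ℂ) y
  · simpa using (hasDerivAt_id (0 : ℂ)).const_mul c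
  · simpa using hasDerivAt_const (0 : ℂ) (0 : ℂ)

theorem Good.line (g : Good H ω R) {x y : ℂ} (hx : ‖x‖ < R) (hy : ‖y‖ < R) (c : ℂ) :
    HasDerivAt (fun t : ℂ => H ![x, y, c * t, 0] 3) (c * DD H x y) 0 := by
  have h1 := line_deriv x y c
  have h2 : HasFDerivAt H (fderiv ℂ H (io x y)) (![x, y, c * 0, 0] : Fin 4 → ℂ) := by
    rw [mul_zero]
    exact (g.an _ (norm_io hx hy)).differentiableAt.hasFDerivAt
  have h3 := h2.comp_hasDerivAt (0 : ℂ) h1
  have h4 := (hasDerivAt_pi.1 h3) 3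
  simpa [DD] using h4

theorem Good.D_eq (g : Good H ω R) {x y : ℂ} (hx : ‖x‖ < R) (hy : ‖y‖ < R) :
    DD H x y = Complex.exp (aa (H (io (gam * x) (gam⁻¹ * y)) 0)
      (H (io (gam * x) (gam⁻¹ * y)) 1) + aa x y) * DD H (gam * x) (gam⁻¹ * y) := by
  have hx' : ‖gam * x‖ < R := rot_lt norm_gam hx
  have hy' : ‖gam⁻¹ * y‖ < R := rot_lt norm_gam_inv hy
  obtain ⟨c, hc⟩ : ∃ c, c = 2 * Complex.exp (aa x y) := ⟨_, rfl⟩
  have h1 : HasDerivAt (fun t : ℂ => H ![x, y, t, 0] 3) (DD H x y) 0 := by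
    simpa using g.line hx hy 1
  have h2 := g.line hx' hy' c
  -- the factor
  have hq : AnalyticAt ℂ (fun t : ℂ => H ![gam * x, gam⁻¹ * y, c * t, 0]) 0 := by
    have k1 : AnalyticAt ℂ (fun t : ℂ => (![gam * x, gam⁻¹ * y, c * t, 0] : Fin 4 → ℂ)) 0 := by
      refine analyticAt_pi_iff.2 fun i => ?_
      fin_cases i
      · exact analyticAt_const
      · exact analyticAt_const
      · exact analyticAt_const.mul analyticAt_id
      · exact analyticAt_const
    have k2 : AnalyticAt ℂ H (![gam * x, gam⁻¹ * y, c * 0, 0] : Fin 4 → ℂ) := by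
      rw [mul_zero]
      exact g.an _ (norm_io hx' hy')
    exact AnalyticAt.fun_comp (f := fun t : ℂ => (![gam * x, gam⁻¹ * y, c * t, 0] : Fin 4 → ℂ))
      k2 k1
  have hsm : ∀ i, ‖H (![gam * x, gam⁻¹ * y, c * 0, 0] : Fin 4 → ℂ) i‖ < 1 := by
    intro i
    rw [mul_zero]
    have := g.small _ (norm_io hx' hy')
    have h3 := norm_le_pi_norm (H (io (gam * x) (gam⁻¹ * y))) i
    calc ‖H (![gam * x, gam⁻¹ * y, 0, 0] : Fin 4 → ℂ) i‖ ≤ _ := h3
      _ < 1 := by linarith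
  have hu := aa_analytic ((analyticAt_pi_iff.1 hq) 0) ((analyticAt_pi_iff.1 hq) 1) (hsm 0) (hsm 1)
  obtain ⟨u, hu'⟩ : ∃ u : ℂ → ℂ, u = fun t : ℂ => 1 / 2 * Complex.exp
    (aa (H ![gam * x, gam⁻¹ * y, c * t, 0] 0) (H ![gam * x, gam⁻¹ * y, c * t, 0] 1)) := ⟨_, rfl⟩
  have hud : DifferentiableAt ℂ u 0 := by
    rw [hu']
    exact (hu.differentiableAt.cexp).const_mul _
  have h3 : HasDerivAt (fun t : ℂ => u t * H ![gam * x, gam⁻¹ * y, c * t, 0] 3)
      (deriv u 0 * H ![gam * x, gam⁻¹ * y, c * 0, 0] 3 + u 0 * (c * DD H (gam * x) (gam⁻¹ * y)))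
      0 := hud.hasDerivAt.mul h2
  have h4 : (fun t : ℂ => u t * H ![gam * x, gam⁻¹ * y, c * t, 0] 3) =ᶠ[𝓝 0]
      fun t : ℂ => H ![x, y, t, 0] 3 := by
    filter_upwards [ball_mem_nhds (0 : ℂ) g.hR0] with t ht
    rw [mem_ball_zero_iff] at ht
    have h5 := g.rev ![x, y, t, 0] (norm_vec_lt hx hy ht (by rw [norm_zero]; exact g.hR0))
    rw [ff_vec, ← hc] at h5
    have h6 := congrFun h5 3
    rw [← h6, hu']
    rfl
  have h5 := (h3.congr_of_eventuallyEq h4.symm).unique h1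
  have h6 : H ![gam * x, gam⁻¹ * y, c * 0, 0] 3 = 0 := by
    rw [mul_zero]
    exact g.W_zero hx' hy'
  have h7 : u 0 = 1 / 2 * Complex.exp
      (aa (H (io (gam * x) (gam⁻¹ * y)) 0) (H (io (gam * x) (gam⁻¹ * y)) 1)) := by
    rw [hu']
    simp only [mul_zero]
    rfl
  rw [h6, mul_zero, zero_add, h7, hc] at h5
  rw [Complex.exp_add, ← h5]
  ring

theorem Good.dat (g : Good H ω R) :
    Dat (R / 2) (fun x y => H (io x y) 0) (fun x y => H (io x y) 1)
      (fun x y => Complex.log (DD H x y / ω)) := by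
  have hR := g.hR0
  have hR1 := g.hR1
  have lt : ∀ {x : ℂ}, ‖x‖ ≤ R / 2 → ‖x‖ < R := fun hx => hx.trans_lt (by linarith)
  have hioc : Continuous fun q : ℂ × ℂ => io q.1 q.2 := by
    unfold io
    refine continuous_pi fun i => ?_
    fin_cases i
    · exact continuous_fst
    · exact continuous_snd
    · exact continuous_const
    · exact continuous_const
  have hrotc : ∀ x y : ℂ, Continuous fun t : ℝ => io (ee t * x) (ee (-t) * y) := by
    intro x y
    refine hioc.comp (Continuous.prodMk (continuous_ee.mul continuous_const)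
      ((continuous_ee.comp continuous_neg).mul continuous_const))
  have hrotlt : ∀ {x y : ℂ}, ‖x‖ < R → ‖y‖ < R → ∀ t : ℝ, ‖io (ee t * x) (ee (-t) * y)‖ < R :=
    fun hx hy t => norm_io (rot_lt (norm_ee t) hx) (rot_lt (norm_ee (-t)) hy)
  have hcomp : ∀ {x y : ℂ}, ‖x‖ < R → ‖y‖ < R → ∀ i, Continuous fun t : ℝ =>
      H (io (ee t * x) (ee (-t) * y)) i := by
    intro x y hx hy i
    have h1 : Continuous fun t : ℝ => H (io (ee t * x) (ee (-t) * y)) := by
      rw [continuous_iff_continuousAt]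
      intro t
      exact ContinuousAt.comp (f := fun t : ℝ => io (ee t * x) (ee (-t) * y))
        (g.an _ (hrotlt hx hy t)).continuousAt (hrotc x y).continuousAt
    exact (continuous_pi_iff.1 h1) i
  have hE : ∀ {x y : ℂ}, ‖x‖ < R → ‖y‖ < R → ‖DD H x y / ω - 1‖ ≤ 1 / 10 := fun hx hy =>
    g.der _ (norm_io hx hy)
  have hlog : ∀ {z : ℂ}, ‖z - 1‖ ≤ 1 / 10 → ‖Complex.log z‖ ≤ 3 / 20 ∧ z ≠ 0 ∧
      z ∈ Complex.slitPlane := by
    intro z hz
    have h1 := Complex.norm_log_one_add_half_le_self (z := z - 1) (by linarith)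
    rw [add_sub_cancel] at h1
    have h2 : z ∈ Complex.slitPlane := by
      left
      have h3 := (Complex.abs_re_le_norm (z - 1)).trans hz
      rw [Complex.sub_re, Complex.one_re, abs_le] at h3
      linarith [h3.1]
    exact ⟨by linarith, Complex.slitPlane_ne_zero h2, h2⟩
  refine ⟨by linarith, by linarith, ?_, ?_, ?_, ?_, ?_, ?_, ?_⟩
  · intro x y hx hy
    rw [continuous_iff_continuousAt]
    intro t
    have h1 : ContinuousAt (fun p => fderiv ℂ H p (Pi.single 2 1) 3)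
        (io (ee t * x) (ee (-t) * y)) := by
      have k1 : ContinuousAt (fderiv ℂ H) (io (ee t * x) (ee (-t) * y)) :=
        (g.an _ (hrotlt (lt hx) (lt hy) t)).fderiv.continuousAt
      exact (continuousAt_pi.1 (k1.clm_apply continuousAt_const)) 3
    have h2 : ContinuousAt (fun t : ℝ => DD H (ee t * x) (ee (-t) * y)) t :=
      ContinuousAt.comp (f := fun t : ℝ => io (ee t * x) (ee (-t) * y)) h1
        (hrotc x y).continuousAt
    refine ContinuousAt.clog (h2.div_const ω) ?_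
    exact (hlog (hE (rot_lt (norm_ee t) (lt hx)) (rot_lt (norm_ee (-t)) (lt hy)))).2.2
  · intro x y hx hy
    have := (hlog (hE (lt hx) (lt hy))).1
    linarith
  · intro x y hx hy
    have h1 := g.small _ (norm_io (lt hx) (lt hy))
    have h2 := norm_le_pi_norm (H (io x y)) 0
    linarith
  · intro x y hx hy
    have h1 := g.small _ (norm_io (lt hx) (lt hy))
    have h2 := norm_le_pi_norm (H (io x y)) 1
    linarith
  · intro x y hx hy t
    have hc : Continuous fun t : ℝ => ee t * H (io (ee t * x) (ee (-t) * y)) 0 :=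
      continuous_ee.mul (hcomp (lt hx) (lt hy) 0)
    have h1 := const_of_periods hc (fun t => by
      rw [ee_add t 1, ee_one, mul_one, neg_add, ee_add (-t) (-1), ee_neg 1, ee_one, inv_one,
        mul_one]) (fun t => by
      have h2 := (g.eqv (rot_lt (norm_ee t) (lt hx)) (rot_lt (norm_ee (-t)) (lt hy))).1
      rw [← mul_assoc gam (ee t) x, ← mul_assoc gam⁻¹ (ee (-t)) y, ee_mul_gam,
        ee_mul_gam_inv] at h2
      rw [← h2, ← ee_mul_gam]
      ring) t
    rw [neg_zero, ee_zero, one_mul, one_mul, one_mul] at h1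
    rw [← h1, ee_neg]
    field_simp [ee_ne t]
  · intro x y hx hy t
    have hc : Continuous fun t : ℝ => ee (-t) * H (io (ee t * x) (ee (-t) * y)) 1 :=
      (continuous_ee.comp continuous_neg).mul (hcomp (lt hx) (lt hy) 1)
    have h1 := const_of_periods hc (fun t => by
      rw [ee_add t 1, ee_one, mul_one, neg_add, ee_add (-t) (-1), ee_neg 1, ee_one, inv_one,
        mul_one]) (fun t => by
      have h2 := (g.eqv (rot_lt (norm_ee t) (lt hx)) (rot_lt (norm_ee (-t)) (lt hy))).2.1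
      rw [← mul_assoc gam (ee t) x, ← mul_assoc gam⁻¹ (ee (-t)) y, ee_mul_gam,
        ee_mul_gam_inv] at h2
      rw [← h2, ← ee_mul_gam_inv]
      ring) t
    rw [neg_zero, ee_zero, one_mul, one_mul, one_mul] at h1
    rw [← h1, ee_neg]
    field_simp [ee_ne t]
  · intro x y hx hy
    have hx' : ‖gam * x‖ < R := rot_lt norm_gam (lt hx)
    have hy' : ‖gam⁻¹ * y‖ < R := rot_lt norm_gam_inv (lt hy)
    have k1 := hlog (hE hx' hy')
    have k2 := g.D_eq (lt hx) (lt hy)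
    have k3 := g.aH _ (norm_io hx' hy')
    have k4 := g.ap (io x y) (norm_io (lt hx) (lt hy))
    rw [io_0, io_1] at k4
    obtain ⟨A, hA⟩ : ∃ A, A = aa (H (io (gam * x) (gam⁻¹ * y)) 0)
      (H (io (gam * x) (gam⁻¹ * y)) 1) := ⟨_, rfl⟩
    obtain ⟨d, hd⟩ : ∃ d, d = Complex.log (DD H (gam * x) (gam⁻¹ * y) / ω) := ⟨_, rfl⟩
    have k5 : Complex.exp d = DD H (gam * x) (gam⁻¹ * y) / ω := by
      rw [hd, Complex.exp_log k1.2.1]
    have k6 : DD H x y / ω = Complex.exp (A + aa x y + d) := by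
      rw [Complex.exp_add (A + aa x y) d, k5, k2, hA]
      ring
    have k9 : Complex.log (DD H x y / ω) = aa x y + aa (H (io (gam * x) (gam⁻¹ * y)) 0)
        (H (io (gam * x) (gam⁻¹ * y)) 1) + Complex.log (DD H (gam * x) (gam⁻¹ * y) / ω) := ?_
    · exact k9
    rw [← hA, ← hd, k6, Complex.log_exp]
    · ring
    all_goals
      have k7 : ‖A + aa x y + d‖ ≤ 1 / 10 + 1 / 10 + 3 / 20 := by
        refine (norm_add_le _ _).trans (add_le_add ((norm_add_le _ _).trans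
          (add_le_add ?_ k4)) ?_)
        · rw [hA]; exact k3
        · rw [hd]; exact k1.1
      have k8 := (Complex.abs_im_le_norm _).trans k7
      rw [abs_le] at k8
      have := Real.pi_gt_three
      linarith [k8.1, k8.2]

end

theorem Rev.false {H G : (Fin 4 → ℂ) → (Fin 4 → ℂ)} {k : ℕ} (h : Rev H G k) : False := by
  obtain ⟨R, g⟩ := h.good
  have hR := g.hR0
  have hdat := g.dat
  have hio : ∀ z, HasDerivAt (fun z : ℂ => io z z) (Pi.single 0 1 + Pi.single 1 1) z := by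
    intro z
    unfold io
    rw [hasDerivAt_pi]
    intro i
    fin_cases i
    · simpa using hasDerivAt_id' z
    · simpa using hasDerivAt_id' z
    · simpa using hasDerivAt_const z (0 : ℂ)
    · simpa using hasDerivAt_const z (0 : ℂ)
  have hder : ∀ i, ∀ z ∈ ball (0 : ℂ) R, HasDerivAt (fun z => H (io z z) i)
      (fderiv ℂ H (io z z) (Pi.single 0 1 + Pi.single 1 1) i) z := by
    intro i z hz
    rw [mem_ball_zero_iff] at hz
    have h1 : HasFDerivAt H (fderiv ℂ H (io z z)) ((fun z : ℂ => io z z) z) :=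
      (g.an _ (norm_io hz hz)).differentiableAt.hasFDerivAt
    have h2 := HasFDerivAt.comp_hasDerivAt (f := fun z : ℂ => io z z) z h1 (hio z)
    exact (hasDerivAt_pi.1 h2) i
  have hio0 : io 0 0 = 0 := by
    funext i; fin_cases i <;> simp [io]
  have hd0 : deriv (fun z => H (io z z) 0) 0 = fderiv ℂ H 0 (Pi.single 1 1) 0 := by
    rw [(hder 0 0 (mem_ball_self hR)).deriv, hio0, map_add, h.L0]
    simp
  have hd1 : deriv (fun z => H (io z z) 1) 0 = fderiv ℂ H 0 (Pi.single 0 1) 1 := by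
    rw [(hder 1 0 (mem_ball_self hR)).deriv, hio0, map_add, h.L1]
    simp
  refine no_finite hdat (r' := R) (by linarith)
    (fun z hz => (hder 0 z hz).differentiableAt.differentiableWithinAt)
    (fun z hz => (hder 1 z hz).differentiableAt.differentiableWithinAt) ?_ ?_ h.hk ?_
  · show H (io 0 0) 0 = 0
    rw [hio0, h.H0]; rfl
  · show H (io 0 0) 1 = 0
    rw [hio0, h.H0]; rfl
  · rw [hd0, hd1]
    exact h.cpow

end Pool.Agent.V1172.FR
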