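import Pool.Agent.V1172.FR.Germ

/-!
The germ `f` in `ℂ⁴` and its reverser `h`.
-/

set_option autoImplicit false

open Set Filter Topology Metric

namespace Pool.Agent.V1172.FR

/-- The germ `f`. -/
noncomputable def ff (p : Fin 4 → ℂ) : Fin 4 → ℂ :=
  ![gam * p 0, gam⁻¹ * p 1, 2 * Complex.exp (aa (p 0) (p 1)) * p 2,
    1 / 2 * Complex.exp (aa (p 0) (p 1)) * p 3]

/-- The inverse of `f`. -/
noncomputable def ffi (p : Fin 4 → ℂ) : Fin 4 → ℂ :=
  ![gam⁻¹ * p 0, gam * p 1, 1 / 2 * Complex.exp (-aa (gam⁻¹ * p 0) (gam * p 1)) * p 2,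
    2 * Complex.exp (-aa (gam⁻¹ * p 0) (gam * p 1)) * p 3]

/-- The reverser `h`. -/
noncomputable def hh (p : Fin 4 → ℂ) : Fin 4 → ℂ :=
  ![p 1, gam * p 0, Complex.exp (cc (p 0) (p 1)) * p 3, Complex.exp (cc (p 0) (p 1)) * p 2]

/-- The inverse of `h`. -/
noncomputable def hhi (p : Fin 4 → ℂ) : Fin 4 → ℂ :=
  ![gam⁻¹ * p 1, p 0, Complex.exp (-cc (gam⁻¹ * p 1) (p 0)) * p 3,
    Complex.exp (-cc (gam⁻¹ * p 1) (p 0)) * p 2]

theorem aa_zero : aa 0 0 = 0 := by simp [aa, PS_zero]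

theorem cc_zero : cc 0 0 = 0 := by simp [cc, PS_zero]

theorem PS_comp {E : Type*} [NormedAddCommGroup E] [NormedSpace ℂ E] {σ : ℕ → ℂ} (hσ : Bd σ)
    {w : E → ℂ} {p : E} (hw : AnalyticAt ℂ w p) (h : ‖w p‖ < 1) :
    AnalyticAt ℂ (fun p => PS σ (w p)) p :=
  AnalyticAt.fun_comp (f := w) (PS_analyticAt hσ h) hw

theorem aa_analytic {E : Type*} [NormedAddCommGroup E] [NormedSpace ℂ E] {u v : E → ℂ} {p : E}
    (hu : AnalyticAt ℂ u p) (hv : AnalyticAt ℂ v p) (hu0 : ‖u p‖ < 1) (hv0 : ‖v p‖ < 1) :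
    AnalyticAt ℂ (fun p => aa (u p) (v p)) p := by
  obtain ⟨h1, h2, h3, h4⟩ := small_mon hu0 hv0
  have k1 : AnalyticAt ℂ (fun p => PS s2 (u p ^ 3 * v p)) p :=
    PS_comp bd_s2 ((hu.pow 3).mul hv) h1
  have k2 : AnalyticAt ℂ (fun p => PS s2' (u p * v p ^ 3)) p :=
    PS_comp bd_s2' (hu.mul (hv.pow 3)) h2
  have k3 : AnalyticAt ℂ (fun p => PS s4 (u p ^ 5 * v p)) p :=
    PS_comp bd_s4 ((hu.pow 5).mul hv) h3
  have k4 : AnalyticAt ℂ (fun p => PS s4' (u p * v p ^ 5)) p :=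
    PS_comp bd_s4' (hu.mul (hv.pow 5)) h4
  exact ((k1.sub k2).add k3).sub k4

theorem cc_analytic {E : Type*} [NormedAddCommGroup E] [NormedSpace ℂ E] {u v : E → ℂ} {p : E}
    (hu : AnalyticAt ℂ u p) (hv : AnalyticAt ℂ v p) (hu0 : ‖u p‖ < 1) (hv0 : ‖v p‖ < 1) :
    AnalyticAt ℂ (fun p => cc (u p) (v p)) p := by
  obtain ⟨h1, h2, h3, h4⟩ := small_mon hu0 hv0
  have k1 : AnalyticAt ℂ (fun p => PS t3 (u p ^ 3 * v p)) p :=
    PS_comp bd_t3 ((hu.pow 3).mul hv) h1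
  have k2 : AnalyticAt ℂ (fun p => PS t1 (u p * v p ^ 3)) p :=
    PS_comp bd_t1 (hu.mul (hv.pow 3)) h2
  have k3 : AnalyticAt ℂ (fun p => PS t5 (u p ^ 5 * v p)) p :=
    PS_comp bd_t5 ((hu.pow 5).mul hv) h3
  have k4 : AnalyticAt ℂ (fun p => PS t1 (u p * v p ^ 5)) p :=
    PS_comp bd_t1 (hu.mul (hv.pow 5)) h4
  exact ((k1.sub k2).add k3).sub k4

theorem proj_analytic (i : Fin 4) (p : Fin 4 → ℂ) : AnalyticAt ℂ (fun p : Fin 4 → ℂ => p i) p :=
  (ContinuousLinearMap.proj (R := ℂ) (φ := fun _ : Fin 4 => ℂ) i).analyticAt p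

theorem vec_analytic {u0 u1 u2 u3 : (Fin 4 → ℂ) → ℂ} {p : Fin 4 → ℂ} (h0 : AnalyticAt ℂ u0 p)
    (h1 : AnalyticAt ℂ u1 p) (h2 : AnalyticAt ℂ u2 p) (h3 : AnalyticAt ℂ u3 p) :
    AnalyticAt ℂ (fun p => ![u0 p, u1 p, u2 p, u3 p]) p := by
  refine analyticAt_pi_iff.2 fun i => ?_
  fin_cases i
  · exact h0
  · exact h1
  · exact h2
  · exact h3

theorem exp_analytic {u : (Fin 4 → ℂ) → ℂ} {p : Fin 4 → ℂ} (h : AnalyticAt ℂ u p) :
    AnalyticAt ℂ (fun p => Complex.exp (u p)) p := h.cexp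

theorem ff_analytic : AnalyticAt ℂ ff 0 := by
  have h0 := proj_analytic 0 0
  have h1 := proj_analytic 1 0
  have h2 := proj_analytic 2 0
  have h3 := proj_analytic 3 0
  have ha := exp_analytic (aa_analytic h0 h1 (by simp) (by simp))
  exact vec_analytic (analyticAt_const.mul h0) (analyticAt_const.mul h1)
    ((analyticAt_const.mul ha).mul h2) ((analyticAt_const.mul ha).mul h3)

theorem ffi_analytic : AnalyticAt ℂ ffi 0 := by
  have h0 := proj_analytic 0 0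
  have h1 := proj_analytic 1 0
  have h2 := proj_analytic 2 0
  have h3 := proj_analytic 3 0
  have ha := exp_analytic (aa_analytic (analyticAt_const (v := gam⁻¹) |>.mul h0)
    (analyticAt_const (v := gam) |>.mul h1) (by simp) (by simp)).neg
  exact vec_analytic (analyticAt_const.mul h0) (analyticAt_const.mul h1)
    ((analyticAt_const.mul ha).mul h2) ((analyticAt_const.mul ha).mul h3)

theorem hh_analytic : AnalyticAt ℂ hh 0 := by
  have h0 := proj_analytic 0 0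
  have h1 := proj_analytic 1 0
  have h2 := proj_analytic 2 0
  have h3 := proj_analytic 3 0
  have ha := exp_analytic (cc_analytic h0 h1 (by simp) (by simp))
  exact vec_analytic h1 (analyticAt_const.mul h0) (ha.mul h3) (ha.mul h2)

theorem hhi_analytic : AnalyticAt ℂ hhi 0 := by
  have h0 := proj_analytic 0 0
  have h1 := proj_analytic 1 0
  have h2 := proj_analytic 2 0
  have h3 := proj_analytic 3 0
  have ha := exp_analytic (cc_analytic (analyticAt_const (v := gam⁻¹) |>.mul h1) h0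
    (by simp) (by simp)).neg
  exact vec_analytic (analyticAt_const.mul h1) h0 (ha.mul h3) (ha.mul h2)

theorem ff_zero : ff 0 = 0 := by
  funext i; fin_cases i <;> simp [ff]

theorem ffi_zero : ffi 0 = 0 := by
  funext i; fin_cases i <;> simp [ffi]

theorem hh_zero : hh 0 = 0 := by
  funext i; fin_cases i <;> simp [hh]

theorem hhi_zero : hhi 0 = 0 := by
  funext i; fin_cases i <;> simp [hhi]

theorem exp_neg_mul_exp (z : ℂ) : Complex.exp (-z) * Complex.exp z = 1 := by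
  rw [← Complex.exp_add, neg_add_cancel, Complex.exp_zero]

theorem ffi_ff (p : Fin 4 → ℂ) : ffi (ff p) = p := by
  have hg := gam_ne
  have h0 : gam⁻¹ * (gam * p 0) = p 0 := by field_simp
  have h1 : gam * (gam⁻¹ * p 1) = p 1 := by field_simp
  have he := exp_neg_mul_exp (aa (p 0) (p 1))
  funext i
  fin_cases i
  · exact h0
  · exact h1
  · show 1 / 2 * Complex.exp (-aa (gam⁻¹ * (gam * p 0)) (gam * (gam⁻¹ * p 1))) *
      (2 * Complex.exp (aa (p 0) (p 1)) * p 2) = p 2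
    rw [h0, h1]
    linear_combination (p 2) * he
  · show 2 * Complex.exp (-aa (gam⁻¹ * (gam * p 0)) (gam * (gam⁻¹ * p 1))) *
      (1 / 2 * Complex.exp (aa (p 0) (p 1)) * p 3) = p 3
    rw [h0, h1]
    linear_combination (p 3) * he

theorem ff_ffi (p : Fin 4 → ℂ) : ff (ffi p) = p := by
  have hg := gam_ne
  have h0 : gam * (gam⁻¹ * p 0) = p 0 := by field_simp
  have h1 : gam⁻¹ * (gam * p 1) = p 1 := by field_simp
  have he := exp_neg_mul_exp (aa (gam⁻¹ * p 0) (gam * p 1))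
  funext i
  fin_cases i
  · exact h0
  · exact h1
  · show 2 * Complex.exp (aa (gam⁻¹ * p 0) (gam * p 1)) *
      (1 / 2 * Complex.exp (-aa (gam⁻¹ * p 0) (gam * p 1)) * p 2) = p 2
    linear_combination (p 2) * he
  · show 1 / 2 * Complex.exp (aa (gam⁻¹ * p 0) (gam * p 1)) *
      (2 * Complex.exp (-aa (gam⁻¹ * p 0) (gam * p 1)) * p 3) = p 3
    linear_combination (p 3) * he

theorem hhi_hh (p : Fin 4 → ℂ) : hhi (hh p) = p := by
  have hg := gam_ne
  have h0 : gam⁻¹ * (gam * p 0) = p 0 := by field_simp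
  have he := exp_neg_mul_exp (cc (p 0) (p 1))
  funext i
  fin_cases i
  · exact h0
  · rfl
  · show Complex.exp (-cc (gam⁻¹ * (gam * p 0)) (p 1)) * (Complex.exp (cc (p 0) (p 1)) * p 2) = p 2
    rw [h0]
    linear_combination (p 2) * he
  · show Complex.exp (-cc (gam⁻¹ * (gam * p 0)) (p 1)) * (Complex.exp (cc (p 0) (p 1)) * p 3) = p 3
    rw [h0]
    linear_combination (p 3) * he

theorem hh_hhi (p : Fin 4 → ℂ) : hh (hhi p) = p := by
  have hg := gam_ne
  have h1 : gam * (gam⁻¹ * p 1) = p 1 := by field_simp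
  have he := exp_neg_mul_exp (cc (gam⁻¹ * p 1) (p 0))
  funext i
  fin_cases i
  · rfl
  · exact h1
  · show Complex.exp (cc (gam⁻¹ * p 1) (p 0)) * (Complex.exp (-cc (gam⁻¹ * p 1) (p 0)) * p 2) = p 2
    linear_combination (p 2) * he
  · show Complex.exp (cc (gam⁻¹ * p 1) (p 0)) * (Complex.exp (-cc (gam⁻¹ * p 1) (p 0)) * p 3) = p 3
    linear_combination (p 3) * he

/-- `h` reverses `f`. -/
theorem reverse (p : Fin 4 → ℂ) (h0 : ‖p 0‖ < 1) (h1 : ‖p 1‖ < 1) : ff (hh (ff p)) = hh p := by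
  have hg := gam_ne
  have hco := cocycle h0 h1
  have e1 : gam * (gam * p 0) = gam ^ 2 * p 0 := by ring
  have hexp : Complex.exp (aa (gam⁻¹ * p 1) (gam ^ 2 * p 0)) *
      Complex.exp (cc (gam * p 0) (gam⁻¹ * p 1)) * Complex.exp (aa (p 0) (p 1)) =
      Complex.exp (cc (p 0) (p 1)) := by
    rw [← Complex.exp_add, ← Complex.exp_add, hco]
  funext i
  fin_cases i
  · show gam * (gam⁻¹ * p 1) = p 1
    field_simp
  · show gam⁻¹ * (gam * (gam * p 0)) = gam * p 0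
    field_simp
  · show 2 * Complex.exp (aa (gam⁻¹ * p 1) (gam * (gam * p 0))) *
      (Complex.exp (cc (gam * p 0) (gam⁻¹ * p 1)) *
        (1 / 2 * Complex.exp (aa (p 0) (p 1)) * p 3)) = Complex.exp (cc (p 0) (p 1)) * p 3
    rw [e1]
    linear_combination (p 3) * hexp
  · show 1 / 2 * Complex.exp (aa (gam⁻¹ * p 1) (gam * (gam * p 0))) *
      (Complex.exp (cc (gam * p 0) (gam⁻¹ * p 1)) *
        (2 * Complex.exp (aa (p 0) (p 1)) * p 2)) = Complex.exp (cc (p 0) (p 1)) * p 2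
    rw [e1]
    linear_combination (p 2) * hexp

theorem reverse_germ : ff ∘ hh ∘ ff =ᶠ[𝓝 (0 : Fin 4 → ℂ)] hh := by
  filter_upwards [ball_mem_nhds (0 : Fin 4 → ℂ) one_pos] with p hp
  rw [mem_ball_zero_iff] at hp
  exact reverse p ((norm_le_pi_norm p 0).trans_lt hp) ((norm_le_pi_norm p 1).trans_lt hp)

end Pool.Agent.V1172.FR
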