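import Pool.Agent.V1172.FR.Seq

/-!
Lacunary power series and their Fourier coefficients.
-/

set_option autoImplicit false

open Set Filter Topology Metric

namespace Pool.Agent.V1172.FR

/-- The lacunary power series with coefficients `σ`. -/
noncomputable def PS (σ : ℕ → ℂ) (s : ℂ) : ℂ := ∑' l, σ l * s ^ Mseq l

/-- Bounded sequences. -/
def Bd (σ : ℕ → ℂ) : Prop := ∃ C : ℝ, 0 ≤ C ∧ ∀ l, ‖σ l‖ ≤ C

theorem term_le {σ : ℕ → ℂ} {C : ℝ} (hC : ∀ l, ‖σ l‖ ≤ C) (hC0 : 0 ≤ C) {s : ℂ} {ρ : ℝ}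
    (hs : ‖s‖ ≤ ρ) (hρ : ρ ≤ 1) (l : ℕ) : ‖σ l * s ^ Mseq l‖ ≤ C * ρ ^ l := by
  have hρ0 : 0 ≤ ρ := (norm_nonneg s).trans hs
  rw [norm_mul, norm_pow]
  refine mul_le_mul (hC l) ?_ (by positivity) hC0
  calc ‖s‖ ^ Mseq l ≤ ρ ^ Mseq l := pow_le_pow_left₀ (norm_nonneg _) hs _
    _ ≤ ρ ^ l := pow_le_pow_of_le_one hρ0 hρ (le_Mseq l)

theorem summable_PS {σ : ℕ → ℂ} (hσ : Bd σ) {s : ℂ} (hs : ‖s‖ < 1) :
    Summable fun l => σ l * s ^ Mseq l := by
  obtain ⟨C, hC0, hC⟩ := hσ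
  refine Summable.of_norm_bounded ((summable_geometric_of_lt_one (norm_nonneg s) hs).mul_left C)
    fun l => term_le hC hC0 le_rfl hs.le l

theorem PS_add {σ τ : ℕ → ℂ} (hσ : Bd σ) (hτ : Bd τ) {s : ℂ} (hs : ‖s‖ < 1) :
    PS (fun l => σ l + τ l) s = PS σ s + PS τ s := by
  unfold PS
  rw [← (summable_PS hσ hs).tsum_add (summable_PS hτ hs)]
  exact tsum_congr fun l => by ring

theorem PS_sub {σ τ : ℕ → ℂ} (hσ : Bd σ) (hτ : Bd τ) {s : ℂ} (hs : ‖s‖ < 1) :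
    PS (fun l => σ l - τ l) s = PS σ s - PS τ s := by
  unfold PS
  rw [← (summable_PS hσ hs).tsum_sub (summable_PS hτ hs)]
  exact tsum_congr fun l => by ring

theorem PS_mul (σ : ℕ → ℂ) (ζ s : ℂ) : PS σ (ζ * s) = PS (fun l => σ l * ζ ^ Mseq l) s := by
  unfold PS
  exact tsum_congr fun l => by rw [mul_pow]; ring

theorem Bd.mul_pow {σ : ℕ → ℂ} (hσ : Bd σ) {ζ : ℂ} (hζ : ‖ζ‖ = 1) :
    Bd fun l => σ l * ζ ^ Mseq l := by
  obtain ⟨C, hC0, hC⟩ := hσ
  refine ⟨C, hC0, fun l => ?_⟩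
  rw [norm_mul, norm_pow, hζ, one_pow, mul_one]
  exact hC l

theorem Bd.sub {σ τ : ℕ → ℂ} (hσ : Bd σ) (hτ : Bd τ) : Bd fun l => σ l - τ l := by
  obtain ⟨C, hC0, hC⟩ := hσ
  obtain ⟨D, hD0, hD⟩ := hτ
  exact ⟨C + D, by positivity, fun l => (norm_sub_le _ _).trans (add_le_add (hC l) (hD l))⟩

theorem Bd.add {σ τ : ℕ → ℂ} (hσ : Bd σ) (hτ : Bd τ) : Bd fun l => σ l + τ l := by
  obtain ⟨C, hC0, hC⟩ := hσ
  obtain ⟨D, hD0, hD⟩ := hτ
  exact ⟨C + D, by positivity, fun l => (norm_add_le _ _).trans (add_le_add (hC l) (hD l))⟩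

theorem PS_zero (σ : ℕ → ℂ) : PS σ 0 = 0 := by
  unfold PS
  have : ∀ l, σ l * (0 : ℂ) ^ Mseq l = 0 := fun l => by
    rw [zero_pow (Mseq_pos l).ne', mul_zero]
  simp [this]

theorem PS_diff {σ : ℕ → ℂ} (hσ : Bd σ) : DifferentiableOn ℂ (PS σ) (ball 0 1) := by
  intro z hz
  rw [mem_ball_zero_iff] at hz
  obtain ⟨ρ, hρ1, hρ2⟩ := exists_between hz
  have hρ0 : 0 ≤ ρ := (norm_nonneg z).trans hρ1.le
  obtain ⟨C, hC0, hC⟩ := hσ
  have h1 : DifferentiableOn ℂ (fun w : ℂ => ∑' l, σ l * w ^ Mseq l) (ball 0 ρ) := by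
    refine Complex.differentiableOn_tsum_of_summable_norm (u := fun l => C * ρ ^ l)
      ((summable_geometric_of_lt_one hρ0 hρ2).mul_left C) ?_ isOpen_ball ?_
    · intro l
      fun_prop
    · intro l w hw
      exact term_le hC hC0 (mem_ball_zero_iff.1 hw).le hρ2.le l
  have h2 : DifferentiableAt ℂ (fun w : ℂ => ∑' l, σ l * w ^ Mseq l) z :=
    (h1 z (mem_ball_zero_iff.2 hρ1)).differentiableAt
      (isOpen_ball.mem_nhds (mem_ball_zero_iff.2 hρ1))
  exact h2.differentiableWithinAt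

theorem PS_analyticAt {σ : ℕ → ℂ} (hσ : Bd σ) {z : ℂ} (hz : ‖z‖ < 1) : AnalyticAt ℂ (PS σ) z :=
  (PS_diff hσ).analyticAt (isOpen_ball.mem_nhds (mem_ball_zero_iff.2 hz))

/-- The character of the circle. -/
noncomputable def ee (t : ℝ) : ℂ := Complex.exp (2 * Real.pi * Complex.I * t)

theorem ee_add (s t : ℝ) : ee (s + t) = ee s * ee t := by
  unfold ee
  rw [← Complex.exp_add]
  push_cast
  ring_nf

theorem ee_zero : ee 0 = 1 := by simp [ee]

theorem ee_int (n : ℤ) : ee n = 1 := by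
  unfold ee
  have : (2 * (Real.pi : ℂ) * Complex.I * ((n : ℝ) : ℂ)) = (n : ℂ) * (2 * Real.pi * Complex.I) := by
    push_cast; ring
  rw [this, Complex.exp_int_mul_two_pi_mul_I]

theorem ee_one : ee 1 = 1 := by simpa using ee_int 1

theorem norm_ee (t : ℝ) : ‖ee t‖ = 1 := by
  unfold ee
  have : (2 * (Real.pi : ℂ) * Complex.I * t) = ((2 * Real.pi * t : ℝ) : ℂ) * Complex.I := by
    push_cast; ring
  rw [this, Complex.norm_exp_ofReal_mul_I]

theorem ee_ne (t : ℝ) : ee t ≠ 0 := Complex.exp_ne_zero _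

theorem ee_pow (t : ℝ) (n : ℕ) : ee t ^ n = ee (n * t) := by
  unfold ee
  rw [← Complex.exp_nat_mul]
  push_cast
  ring_nf

theorem ee_neg (t : ℝ) : ee (-t) = (ee t)⁻¹ := by
  unfold ee
  rw [← Complex.exp_neg]
  push_cast
  ring_nf

theorem ee_theta : ee theta = gam := rfl

theorem continuous_ee : Continuous ee := by
  unfold ee
  fun_prop

theorem integral_ee (n : ℤ) : ∫ t in (0 : ℝ)..1, ee (n * t) = if n = 0 then 1 else 0 := by
  split_ifs with h
  · subst h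
    simp [ee_zero]
  · have hc : (2 * (Real.pi : ℂ) * Complex.I * n) ≠ 0 := by
      have : (n : ℂ) ≠ 0 := by exact_mod_cast h
      have h2 : (Real.pi : ℂ) ≠ 0 := by exact_mod_cast Real.pi_ne_zero
      exact mul_ne_zero (mul_ne_zero (mul_ne_zero two_ne_zero h2) Complex.I_ne_zero) this
    have h1 : ∀ t : ℝ, ee (n * t) = Complex.exp ((2 * Real.pi * Complex.I * n) * t) := by
      intro t
      unfold ee
      push_cast
      ring_nf
    simp only [h1]
    rw [integral_exp_mul_complex hc]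
    have h2 : Complex.exp ((2 * Real.pi * Complex.I * n) * ((1 : ℝ) : ℂ)) = 1 := by
      rw [← h1, mul_one, ee_int]
    rw [h2]
    simp

theorem fourier_PS {σ : ℕ → ℂ} (hσ : Bd σ) {s : ℂ} (hs : ‖s‖ < 1) (m n : ℤ) :
    ∫ t in (0 : ℝ)..1, PS σ (ee (m * t) * s) * ee (-(n * t)) =
      ∑' l, if m * (Mseq l : ℤ) = n then σ l * s ^ Mseq l else 0 := by
  obtain ⟨C, hC0, hC⟩ := hσ
  have h1 : HasSum (fun l => ∫ t in (0 : ℝ)..1, σ l * (ee (m * t) * s) ^ Mseq l * ee (-(n * t)))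
      (∫ t in (0 : ℝ)..1, PS σ (ee (m * t) * s) * ee (-(n * t))) := by
    refine intervalIntegral.hasSum_integral_of_dominated_convergence
      (fun l _ => C * ‖s‖ ^ l) ?_ ?_ ?_ ?_ ?_
    · intro l
      have hc : Continuous fun t : ℝ => σ l * (ee (m * t) * s) ^ Mseq l * ee (-(n * t)) := by
        have h2 : Continuous fun t : ℝ => ee (m * t) := continuous_ee.comp (by fun_prop)
        have h3 : Continuous fun t : ℝ => ee (-(n * t)) := continuous_ee.comp (by fun_prop)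
        exact (((h2.mul continuous_const).pow _).const_mul _).mul h3
      exact hc.aestronglyMeasurable
    · intro l
      refine Eventually.of_forall fun t _ => ?_
      rw [norm_mul, norm_ee, mul_one]
      refine term_le hC hC0 ?_ hs.le l
      rw [norm_mul, norm_ee, one_mul]
    · refine Eventually.of_forall fun t _ => ?_
      exact (summable_geometric_of_lt_one (norm_nonneg s) hs).mul_left C
    · exact intervalIntegrable_const
    · refine Eventually.of_forall fun t _ => ?_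
      have h2 : ‖ee (m * t) * s‖ < 1 := by rw [norm_mul, norm_ee, one_mul]; exact hs
      exact (summable_PS ⟨C, hC0, hC⟩ h2).hasSum.mul_right _
  rw [← h1.tsum_eq]
  refine tsum_congr fun l => ?_
  have h2 : ∀ t : ℝ, σ l * (ee (m * t) * s) ^ Mseq l * ee (-(n * t)) =
      (σ l * s ^ Mseq l) * ee (((m * (Mseq l : ℤ) - n : ℤ)) * t) := by
    intro t
    rw [mul_pow, ee_pow]
    have h3 : (((m * (Mseq l : ℤ) - n : ℤ)) * t : ℝ) = (Mseq l : ℕ) * (m * t) + -(n * t) := by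
      push_cast; ring
    rw [h3, ee_add]
    ring
  simp only [h2]
  rw [intervalIntegral.integral_const_mul, integral_ee]
  by_cases h3 : m * (Mseq l : ℤ) = n
  · rw [if_pos (by omega), if_pos h3, mul_one]
  · rw [if_neg (by omega), if_neg h3, mul_zero]

theorem fourier_hit {σ : ℕ → ℂ} (hσ : Bd σ) {s : ℂ} (hs : ‖s‖ < 1) (m : ℤ) (hm : m ≠ 0) (l : ℕ) :
    ∫ t in (0 : ℝ)..1, PS σ (ee (m * t) * s) * ee (-((m * (Mseq l : ℤ) : ℤ) * t)) =
      σ l * s ^ Mseq l := by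
  rw [fourier_PS hσ hs, tsum_eq_single l]
  · rw [if_pos rfl]
  · intro l' hl'
    rw [if_neg]
    intro h
    have h1 : (Mseq l' : ℤ) = Mseq l := mul_left_cancel₀ hm h
    exact hl' (Mseq_strictMono.injective (by exact_mod_cast h1))

theorem fourier_miss {σ : ℕ → ℂ} (hσ : Bd σ) {s : ℂ} (hs : ‖s‖ < 1) (m n : ℤ)
    (h : ∀ l, m * (Mseq l : ℤ) ≠ n) :
    ∫ t in (0 : ℝ)..1, PS σ (ee (m * t) * s) * ee (-(n * t)) = 0 := by
  rw [fourier_PS hσ hs]
  have : ∀ l, (if m * (Mseq l : ℤ) = n then σ l * s ^ Mseq l else 0) = 0 := fun l =>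
    if_neg (h l)
  simp [this]

end Pool.Agent.V1172.FR
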