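import Mathlib

/-!
A Liouville rotation number.
-/

set_option autoImplicit false

open Set Filter Topology

namespace Pool.Agent.V1172.FR

/-- The sequence of exponents. -/
def Mseq : ℕ → ℕ
  | 0 => 1
  | (l + 1) => 8 * (l + 1) * Mseq l ^ (Mseq l + 1)

theorem Mseq_pos (l : ℕ) : 0 < Mseq l := by
  induction l with
  | zero => simp [Mseq]
  | succ l ih =>
    rw [Mseq]
    positivity

theorem Mseq_succ_ge (l : ℕ) : 8 * Mseq l ^ (Mseq l + 1) ≤ Mseq (l + 1) := by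
  rw [Mseq]
  have := pow_pos (Mseq_pos l) (Mseq l + 1)
  nlinarith

theorem Mseq_double (l : ℕ) : 2 * Mseq l < Mseq (l + 1) := by
  have h1 := Mseq_succ_ge l
  have h2 : Mseq l ≤ Mseq l ^ (Mseq l + 1) := Nat.le_self_pow (by omega) _
  have := Mseq_pos l
  omega

theorem Mseq_dvd_succ (l : ℕ) : 2 * Mseq l ∣ Mseq (l + 1) := by
  rw [Mseq, pow_succ]
  exact ⟨4 * (l + 1) * Mseq l ^ Mseq l, by ring⟩

theorem Mseq_dvd {j l : ℕ} (h : j < l) : 2 * Mseq j ∣ Mseq l := by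
  induction l, h using Nat.le_induction with
  | base => exact Mseq_dvd_succ j
  | succ l _ ih => exact (ih.trans (Dvd.intro_left 2 rfl)).trans (Mseq_dvd_succ l)

theorem dvd_Mseq {k l : ℕ} (hk : 0 < k) (h : k ≤ l) : k ∣ Mseq l := by
  have h1 : k ∣ Mseq k := by
    obtain ⟨m, rfl⟩ : ∃ m, k = m + 1 := ⟨k - 1, by omega⟩
    rw [Mseq]
    exact ⟨8 * Mseq m ^ (Mseq m + 1), by ring⟩
  rcases h.eq_or_lt with rfl | h2
  · exact h1
  · exact h1.trans ((Dvd.intro_left 2 rfl).trans (Mseq_dvd h2))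

theorem Mseq_strictMono : StrictMono Mseq := by
  refine strictMono_nat_of_lt_succ fun l => ?_
  have := Mseq_double l
  omega

theorem le_Mseq (l : ℕ) : l ≤ Mseq l := Mseq_strictMono.le_apply

theorem Mseq_two_ne (l l' : ℕ) : 2 * Mseq l ≠ Mseq l' := by
  intro h
  have h1 : Mseq l < Mseq l' := by have := Mseq_pos l; omega
  have h2 : l < l' := Mseq_strictMono.lt_iff_lt.1 h1
  have h3 : Mseq (l + 1) ≤ Mseq l' := Mseq_strictMono.monotone h2
  have h4 := Mseq_double l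
  omega

theorem Mseq_growth (l j : ℕ) : Mseq l * 2 ^ j ≤ Mseq (l + j) := by
  induction j with
  | zero => simp
  | succ j ih =>
    have h1 := Mseq_double (l + j)
    rw [pow_succ]
    have h2 : l + (j + 1) = l + j + 1 := rfl
    rw [h2]
    calc Mseq l * (2 ^ j * 2) = (Mseq l * 2 ^ j) * 2 := by ring
      _ ≤ Mseq (l + j) * 2 := Nat.mul_le_mul_right 2 ih
      _ ≤ _ := by omega

theorem inv_Mseq_le (l j : ℕ) : ((Mseq (j + l) : ℝ))⁻¹ ≤ ((Mseq l : ℝ))⁻¹ * (1 / 2) ^ j := by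
  have h1 : ((Mseq l * 2 ^ j : ℕ) : ℝ) ≤ Mseq (j + l) := by
    have := Mseq_growth l j
    rw [add_comm l j] at this
    exact_mod_cast this
  have h0 : (0 : ℝ) < Mseq l := by exact_mod_cast Mseq_pos l
  have h2 : ((Mseq l : ℝ))⁻¹ * (1 / 2) ^ j = (((Mseq l * 2 ^ j : ℕ) : ℝ))⁻¹ := by
    push_cast
    rw [mul_inv, one_div, inv_pow]
  rw [h2]
  exact inv_anti₀ (Nat.cast_pos.2 (Nat.mul_pos (Mseq_pos l) (by positivity))) h1

theorem summable_inv_Mseq : Summable fun j => ((Mseq j : ℝ))⁻¹ := by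
  refine Summable.of_nonneg_of_le (fun j => by positivity) (fun j => ?_)
    ((summable_geometric_two).mul_left ((Mseq 0 : ℝ))⁻¹)
  have := inv_Mseq_le 0 j
  simpa using this

theorem tail_le (l : ℕ) : ∑' j, ((Mseq (j + (l + 1)) : ℝ))⁻¹ ≤ 2 * ((Mseq (l + 1) : ℝ))⁻¹ := by
  have h1 : ∑' j, ((Mseq (j + (l + 1)) : ℝ))⁻¹ ≤ ∑' j : ℕ, ((Mseq (l + 1) : ℝ))⁻¹ * (1 / 2) ^ j := by
    refine Summable.tsum_le_tsum (fun j => inv_Mseq_le (l + 1) j) ?_ ?_
    · exact (summable_nat_add_iff (l + 1)).2 summable_inv_Mseq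
    · exact (summable_geometric_two).mul_left _
  rw [tsum_mul_left, tsum_geometric_two] at h1
  linarith

/-- The rotation number. -/
noncomputable def theta : ℝ := (∑' j, ((Mseq j : ℝ))⁻¹) / 2

/-- The rotation factor. -/
noncomputable def gam : ℂ := Complex.exp (2 * Real.pi * Complex.I * theta)

theorem norm_gam : ‖gam‖ = 1 := by
  unfold gam
  have : (2 * (Real.pi : ℂ) * Complex.I * theta) = ((2 * Real.pi * theta : ℝ) : ℂ) * Complex.I := by
    push_cast; ring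
  rw [this, Complex.norm_exp_ofReal_mul_I]

theorem gam_pow (l : ℕ) : ∃ τ : ℝ, 0 ≤ τ ∧ τ ≤ 2 * Mseq l * ((Mseq (l + 1) : ℝ))⁻¹ ∧
    gam ^ Mseq l = -Complex.exp (Complex.I * ((Real.pi * τ : ℝ) : ℂ)) := by
  have h0 : (0 : ℝ) < Mseq l := by exact_mod_cast Mseq_pos l
  refine ⟨Mseq l * ∑' j, ((Mseq (j + (l + 1)) : ℝ))⁻¹, ?_, ?_, ?_⟩
  · exact mul_nonneg h0.le (tsum_nonneg fun j => by positivity)
  · have := mul_le_mul_of_nonneg_left (tail_le l) h0.le
    calc (Mseq l : ℝ) * ∑' j, ((Mseq (j + (l + 1)) : ℝ))⁻¹ ≤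
        Mseq l * (2 * ((Mseq (l + 1) : ℝ))⁻¹) := this
      _ = _ := by ring
  · obtain ⟨T, hT⟩ : ∃ T : ℝ, T = ∑' j, ((Mseq (j + (l + 1)) : ℝ))⁻¹ := ⟨_, rfl⟩
    rw [← hT]
    have h1 : ∑' j, ((Mseq j : ℝ))⁻¹ = ∑ j ∈ Finset.range (l + 1), ((Mseq j : ℝ))⁻¹ + T := by
      rw [hT]
      exact (summable_inv_Mseq.sum_add_tsum_nat_add (l + 1)).symm
    -- the finite sum
    have h2 : ∃ N : ℕ, (Mseq l : ℝ) * ∑ j ∈ Finset.range l, ((Mseq j : ℝ))⁻¹ = 2 * N := by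
      have hd : ∀ j ∈ Finset.range l, ∃ q : ℕ, Mseq l = 2 * Mseq j * q := fun j hj =>
        Mseq_dvd (Finset.mem_range.1 hj)
      choose! q hq using hd
      refine ⟨∑ j ∈ Finset.range l, q j, ?_⟩
      push_cast
      rw [Finset.mul_sum, Finset.mul_sum]
      refine Finset.sum_congr rfl fun j hj => ?_
      have hj0 : (Mseq j : ℝ) ≠ 0 := by
        have := Mseq_pos j
        positivity
      have h3 : (Mseq l : ℝ) = 2 * Mseq j * q j := by exact_mod_cast hq j hj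
      rw [h3]
      field_simp
    obtain ⟨N, hN⟩ := h2
    have h3 : (Mseq l : ℝ) * (2 * theta) = 2 * N + 1 + Mseq l * T := by
      unfold theta
      rw [h1, Finset.sum_range_succ]
      have : (Mseq l : ℝ) * ((Mseq l : ℝ))⁻¹ = 1 := mul_inv_cancel₀ h0.ne'
      linear_combination hN + this
    unfold gam
    rw [← Complex.exp_nat_mul]
    have h4 : ((Mseq l : ℕ) : ℂ) * (2 * Real.pi * Complex.I * theta) =
        (N : ℤ) * (2 * Real.pi * Complex.I) + Real.pi * Complex.I +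
          Complex.I * ((Real.pi * (Mseq l * T) : ℝ) : ℂ) := by
      have h5 : ((Mseq l : ℕ) : ℂ) * (2 * theta) = 2 * N + 1 + Mseq l * T := by exact_mod_cast h3
      push_cast
      linear_combination (Real.pi * Complex.I : ℂ) * h5
    rw [h4, Complex.exp_add, Complex.exp_add, Complex.exp_int_mul_two_pi_mul_I,
      Complex.exp_pi_mul_I]
    ring

theorem small (l : ℕ) : (Mseq l : ℝ) ^ Mseq l * ‖1 + gam ^ Mseq l‖ ≤ 1 := by
  obtain ⟨τ, hτ0, hτ, h⟩ := gam_pow l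
  have h0 : (0 : ℝ) < Mseq l := by exact_mod_cast Mseq_pos l
  have h1' : (0 : ℝ) < Mseq (l + 1) := by exact_mod_cast Mseq_pos (l + 1)
  have h1 : ‖1 + gam ^ Mseq l‖ ≤ Real.pi * τ := by
    rw [h, ← sub_eq_add_neg, norm_sub_rev]
    refine (Real.norm_exp_I_mul_ofReal_sub_one_le).trans ?_
    rw [Real.norm_eq_abs, abs_of_nonneg (by positivity)]
  have h2 : Real.pi ≤ 4 := Real.pi_le_four
  have h3 : (8 : ℝ) * (Mseq l : ℝ) ^ (Mseq l + 1) ≤ Mseq (l + 1) := by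
    exact_mod_cast Mseq_succ_ge l
  have h4 : Real.pi * τ ≤ 4 * (2 * Mseq l * ((Mseq (l + 1) : ℝ))⁻¹) :=
    mul_le_mul h2 hτ hτ0 (by norm_num)
  calc (Mseq l : ℝ) ^ Mseq l * ‖1 + gam ^ Mseq l‖ ≤
      (Mseq l : ℝ) ^ Mseq l * (4 * (2 * Mseq l * ((Mseq (l + 1) : ℝ))⁻¹)) :=
        mul_le_mul_of_nonneg_left (h1.trans h4) (by positivity)
    _ = 8 * (Mseq l : ℝ) ^ (Mseq l + 1) / Mseq (l + 1) := by
        rw [pow_succ]; ring
    _ ≤ 1 := by
        rw [div_le_one h1']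
        exact h3

theorem gam_pow_ne_one {k : ℕ} (hk : 0 < k) : gam ^ k ≠ 1 := by
  intro h
  obtain ⟨l, hl⟩ : ∃ l, l = k + 2 := ⟨_, rfl⟩
  obtain ⟨q, hq⟩ := dvd_Mseq hk (show k ≤ l by omega)
  have h1 : gam ^ Mseq l = 1 := by rw [hq, pow_mul, h, one_pow]
  have h2 := small l
  rw [h1] at h2
  have h3 : ‖(1 : ℂ) + 1‖ = 2 := by
    have : (1 : ℂ) + 1 = 2 := by norm_num
    rw [this]; simp
  rw [h3] at h2
  have h4 : (1 : ℝ) ≤ (Mseq l : ℝ) ^ Mseq l := one_le_pow₀ (by exact_mod_cast Mseq_pos l)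
  linarith

theorem irrational_theta : Irrational theta := by
  rintro ⟨q, hq⟩
  apply gam_pow_ne_one q.pos
  unfold gam
  rw [← Complex.exp_nat_mul, ← hq]
  have h1 : ((q.den : ℕ) : ℂ) * (2 * Real.pi * Complex.I * ((q : ℝ) : ℂ)) =
      (q.num : ℤ) * (2 * Real.pi * Complex.I) := by
    have h2 : ((q.den : ℕ) : ℂ) * ((q : ℝ) : ℂ) = (q.num : ℂ) := by
      have h3 : ((q.den : ℕ) : ℚ) * q = q.num := Rat.den_mul_eq_num q
      have h4 : ((((q.den : ℕ) : ℚ) * q : ℚ) : ℂ) = ((q.num : ℚ) : ℂ) := by rw [h3]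
      push_cast at h4
      push_cast
      exact h4
    linear_combination (2 * Real.pi * Complex.I : ℂ) * h2
  rw [h1, Complex.exp_int_mul_two_pi_mul_I]

/-- The sizes of the coefficients. -/
noncomputable def beta (l : ℕ) : ℝ := (Mseq l : ℝ) ^ Mseq l

theorem beta_pos (l : ℕ) : 0 < beta l := by
  have : (0 : ℝ) < Mseq l := by exact_mod_cast Mseq_pos l
  unfold beta
  positivity

/-- The coefficients grow faster than every geometric sequence. -/
theorem beta_growth (ρ : ℝ) (hρ : 0 < ρ) (K ε : ℝ) (hε : 0 < ε) :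
    ∃ L : ℕ, ∀ l, L ≤ l → K / (beta l * ρ ^ Mseq l) ≤ ε := by
  obtain ⟨N, hN⟩ := exists_nat_gt (max (2 / ρ) (K / ε + 1))
  refine ⟨N, fun l hl => ?_⟩
  have h1 : (N : ℝ) ≤ Mseq l := by exact_mod_cast hl.trans (le_Mseq l)
  have h2 : 2 / ρ < Mseq l := ((le_max_left _ _).trans_lt hN).trans_le h1
  have h3 : K / ε + 1 < Mseq l := ((le_max_right _ _).trans_lt hN).trans_le h1
  rw [div_lt_iff₀ hρ] at h2
  have h4 : (Mseq l : ℝ) ≤ beta l * ρ ^ Mseq l := by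
    unfold beta
    rw [← mul_pow]
    calc (Mseq l : ℝ) ≤ 2 ^ Mseq l := by
          exact_mod_cast (Nat.lt_two_pow_self).le
      _ ≤ ((Mseq l : ℝ) * ρ) ^ Mseq l := pow_le_pow_left₀ (by norm_num) h2.le _
  have h5 : 0 < beta l * ρ ^ Mseq l := mul_pos (beta_pos l) (by positivity)
  rw [div_le_iff₀ h5]
  have h6 : K / ε ≤ beta l * ρ ^ Mseq l := by linarith
  rw [div_le_iff₀ hε] at h6
  linarith

end Pool.Agent.V1172.FR
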